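import Mathlib
import Pool.Agent.H496.R8.Top

/-! Definitions: finite places, Hecke operators, the range and the bound. -/

set_option autoImplicit false
set_option linter.unusedSectionVars false

namespace Pool.Agent.H496.R10

open MeasureTheory Matrix Set Pool.Agent.H496.R8
open scoped ComplexConjugate ENNReal Pointwise Classical

/-- The indicator function of `I`. -/
def ind {N : ℕ} (I : Finset (Fin N)) : Fin N → ℤ := fun i => if i ∈ I then 1 else 0

/-- The elementary symmetric function of degree `k`. -/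
noncomputable def es {N : ℕ} (α : Fin N → ℂ) (k : ℕ) : ℂ :=
  ∑ I ∈ Finset.powersetCard k (Finset.univ : Finset (Fin N)), ∏ i ∈ I, α i

/-- The data of a finite place: the integers `𝔬`, representatives of `𝔬/ϖ𝔬`, a uniformizer `ϖ` and a scalar `z`. -/
structure Place (R : Type*) [CommRing R] where
  o : AddSubgroup R
  rep : Finset R
  ϖ : Rˣ
  z : Rˣ

variable {R : Type*} [CommRing R] [TopologicalSpace R] [IsTopologicalRing R] [MeasurableSpace R] [BorelSpace R]
  [SecondCountableTopology R] [T2Space R] {n : ℕ}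
variable {H : Type*} [Group H] [TopologicalSpace H] [IsTopologicalGroup H] [SecondCountableTopology H] [T2Space H]
  [MeasurableSpace H] [BorelSpace H]

/-- The norm of the place. -/
def Place.q {R : Type*} [CommRing R] (P : Place R) : ℝ := P.rep.card

/-- The diagonal matrix `z^{l_1 + l_2 + ⋯} diag(ϖ^{l_1}, ϖ^{l_2}, …)`. -/
def dg {R : Type*} [CommRing R] {n : ℕ} (P : Place R) (l : Fin n → ℤ) : Fin n → Rˣ :=
  fun i => P.z ^ (∑ j, l j) * P.ϖ ^ (l i)

/-- This matrix as an element of `H`. -/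
noncomputable def tor (E : H →* Matrix (Fin (n + 1)) (Fin (n + 1)) R) (P : Place R) (l : Fin (n + 1) → ℤ) : H :=
  sl E (diagonal fun i => (dg P l i : R))

/-- Unitriangular matrices with integral entries at the place. -/
def IsInt {R : Type*} [CommRing R] {n : ℕ} (P : Place R) (u : Matrix (Fin n) (Fin n) R) : Prop :=
  IsU u ∧ ∀ i j, i < j → u i j ∈ P.o

/-- The Hecke operator of degree `k`: the sum over the cosets `u t_I K` in `K diag(ϖ, …, ϖ, 1, …, 1) K`. -/
noncomputable def hecke (E : H →* Matrix (Fin (n + 1)) (Fin (n + 1)) R) (P : Place R) (k : ℕ) (f : H → ℂ) (x : H) : ℂ :=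
  ∑ I ∈ Finset.powersetCard k (Finset.univ : Finset (Fin (n + 1))),
    ∑ v ∈ Fintype.piFinset (fun p : Fin (n + 1) × Fin (n + 1) => if p.1 < p.2 ∧ p.1 ∈ I ∧ p.2 ∉ I then P.rep else {0}),
      f (x * sl E (1 + Matrix.of fun i j => v (i, j)) * tor E P (ind I))

/-- The conditions on the place, for the generic character `ψ`. -/
structure IsPlace (E : H →* Matrix (Fin (n + 1)) (Fin (n + 1)) R) (ρ : Rˣ →* ℝ) (χ : AddChar R Circle) (μ : ℕ → R)
    (P : Place R) : Prop where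
  rep : ∀ x ∈ P.rep, x ∈ P.o
  mul : ∀ x ∈ P.o, (P.ϖ : R) * x ∈ P.o
  mod : ρ P.ϖ = P.q⁻¹
  mem : ∀ l, (diagonal fun i => (dg P l i : R)) ∈ range E
  triv : ∀ i < n, ∀ x ∈ P.o, χ (μ i * x) = 1
  nontriv : ∀ i < n, ∃ x ∈ P.o, χ (μ i * ((P.ϖ⁻¹ : Rˣ) * x)) ≠ 1

/-- `f` is invariant under integral unitriangular matrices and an eigenfunction of the Hecke operators, with Satake
parameters `α`. -/
structure IsHecke (E : H →* Matrix (Fin (n + 1)) (Fin (n + 1)) R) (P : Place R) (α : Fin (n + 1) → ℂ) (f : H → ℂ) :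
    Prop where
  inv : ∀ u, IsInt P u → ∀ x, f (x * sl E u) = f x
  eig : ∀ k ≤ n + 1, ∀ x, hecke E P k f x = (Real.sqrt P.q : ℂ) ^ (k * (n + 1 - k)) * es α k * f x

/-- `g` commutes with the elements above: its component at the place is trivial. -/
structure IsAway (E : H →* Matrix (Fin (n + 1)) (Fin (n + 1)) R) (P : Place R) (g : H) : Prop where
  uni : ∀ u, IsInt P u → Commute g (sl E u)
  tor : ∀ l, Commute g (tor E P l)

/-- The range: the last rows `c` of `g b' b⁻¹ g⁻¹` satisfy `N(∏ ϖ_p^{-k_p} c_j) < Q` for `k_p ≤ M_p`, `j ≤ n`, and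
`N(c_{n+1} - 1) < 1`. -/
def IsRange {R : Type*} [CommRing R] {n : ℕ} {H : Type*} [Group H] {ι : Type*}
    (E : H →* Matrix (Fin (n + 1)) (Fin (n + 1)) R) (N : R → ℝ) (Q : ℝ) (C : Set H) (g : H)
    (P : ι → Place R) (S : Finset ι) (M : ι → ℕ) : Prop :=
  ∀ b ∈ C, ∀ b' ∈ C, (∀ k : ι → ℕ, (∀ p ∈ S, k p ≤ M p) → ∀ j : Fin n,
      N ((((∏ p ∈ S, (P p).ϖ ^ k p)⁻¹ : Rˣ) : R) * E (g * (b' * b⁻¹) * g⁻¹) (Fin.last n) j.castSucc) < Q) ∧
    N (E (g * (b' * b⁻¹) * g⁻¹) (Fin.last n) (Fin.last n) - 1) < 1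

/-- The bound: `vol(D)^{n(n+1)/2} ∫_U |(κ^* * κ)(g⁻¹ u g)| du`. -/
noncomputable def bd (E : H →* Matrix (Fin (n + 1)) (Fin (n + 1)) R) (m : Measure R) (D : Set R) (vol : Measure H)
    (κ : H → ℂ) (g : H) : ℝ :=
  m.real D ^ ((n + 1) * n / 2) * ∫ u, ‖kk E vol κ g u‖ ∂(uMeas m (n + 1))

end Pool.Agent.H496.R10
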