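import Mathlib
import Pool.Agent.H496.R10.Defs

/-! Pieri relations and large parameters. -/

set_option autoImplicit false

namespace Pool.Agent.H496.R10

open Finset

variable {N : ℕ}

/-- The Pieri relations. -/
structure IsPieri (α : Fin N → ℂ) (a : (Fin N → ℤ) → ℂ) : Prop where
  zero : ∀ l, ¬ Antitone l → a l = 0
  pieri : ∀ l, Antitone l → ∀ k, es α k * a l = ∑ I ∈ powersetCard k univ, a (l + ind I)

/-- The vector `(N-1, …, 1, 0)`. -/
def rh (N : ℕ) : Fin N → ℤ := fun i => (N : ℤ) - 1 - i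

theorem strictAnti_iff {g : Fin N → ℤ} : StrictAnti g ↔ Antitone (g - rh N) := by
  cases N with
  | zero => exact ⟨fun _ i => i.elim0, fun _ i => i.elim0⟩
  | succ n =>
    rw [Fin.strictAnti_iff_succ_lt, Fin.antitone_iff_succ_le]
    refine forall_congr' fun i => ?_
    simp only [Pi.sub_apply, rh, Fin.val_succ, Fin.val_castSucc]
    push_cast
    constructor <;> intro h <;> linarith

/-- The alternating sum. -/
noncomputable def alt (b : (Fin N → ℤ) → ℂ) (β : Fin N → ℤ) : ℂ :=
  ∑ σ : Equiv.Perm (Fin N), ((Equiv.Perm.sign σ : ℤ) : ℂ) * b (β ∘ σ)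

theorem alt_eq_zero (b : (Fin N → ℤ) → ℂ) {β : Fin N → ℤ} (h : ¬ Function.Injective β) : alt b β = 0 := by
  unfold Function.Injective at h
  push Not at h
  obtain ⟨x, y, hxy, hne⟩ := h
  unfold alt
  have hb : β ∘ (Equiv.swap x y) = β := by
    funext z
    show β (Equiv.swap x y z) = β z
    by_cases hzx : z = x
    · rw [hzx, Equiv.swap_apply_left, hxy]
    · by_cases hzy : z = y
      · rw [hzy, Equiv.swap_apply_right, hxy]
      · rw [Equiv.swap_apply_of_ne_of_ne hzx hzy]
  refine Finset.sum_involution (fun σ _ => Equiv.swap x y * σ) (fun σ _ => ?_) (fun σ _ _ h => ?_)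
    (fun σ _ => mem_univ _) (fun σ _ => by simp)
  · have h1 : β ∘ ⇑(Equiv.swap x y * σ) = β ∘ σ := by
      rw [Equiv.Perm.coe_mul, ← Function.comp_assoc, hb]
    rw [h1, Equiv.Perm.sign_mul, Equiv.Perm.sign_swap hne]
    push_cast
    ring
  · have h1 : Equiv.swap x y = 1 := by
      calc Equiv.swap x y = (Equiv.swap x y * σ) * σ⁻¹ := by group
        _ = 1 := by rw [h, mul_inv_cancel]
    exact hne (Equiv.swap_eq_one_iff.1 h1)

theorem ind_comp (I : Finset (Fin N)) (σ : Equiv.Perm (Fin N)) : ind I ∘ σ = ind (I.map σ.symm.toEmbedding) := by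
  funext i
  unfold ind
  simp only [Function.comp_apply, mem_map_equiv, Equiv.symm_symm]

theorem sum_ind {b : (Fin N → ℤ) → ℂ} (g : Fin N → ℤ) (σ : Equiv.Perm (Fin N)) (k : ℕ) :
    ∑ I ∈ powersetCard k (univ : Finset (Fin N)), b (g + ind I ∘ σ) =
      ∑ I ∈ powersetCard k (univ : Finset (Fin N)), b (g + ind I) := by
  simp_rw [ind_comp]
  refine Finset.sum_bij' (fun I _ => I.map σ.symm.toEmbedding) (fun I _ => I.map σ.toEmbedding) ?_ ?_ ?_ ?_ ?_
  · intro I hI
    rw [mem_powersetCard] at hI ⊢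
    exact ⟨subset_univ _, by rw [card_map, hI.2]⟩
  · intro I hI
    rw [mem_powersetCard] at hI ⊢
    exact ⟨subset_univ _, by rw [card_map, hI.2]⟩
  · intro I _
    ext i
    simp
  · intro I _
    ext i
    simp
  · intro I _
    rfl

theorem alt_sum (b : (Fin N → ℤ) → ℂ) (β : Fin N → ℤ) (k : ℕ) :
    ∑ I ∈ powersetCard k (univ : Finset (Fin N)), alt b (β + ind I) =
      alt (fun g => ∑ I ∈ powersetCard k (univ : Finset (Fin N)), b (g + ind I)) β := by
  unfold alt
  rw [Finset.sum_comm]
  refine Finset.sum_congr rfl fun σ _ => ?_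
  rw [← Finset.mul_sum]
  congr 1
  show _ = ∑ I ∈ powersetCard k (univ : Finset (Fin N)), b (β ∘ σ + ind I)
  rw [← sum_ind (b := b) (β ∘ σ) σ k]
  rfl

variable {α : Fin N → ℂ} {a : (Fin N → ℤ) → ℂ}

/-- The shifted alternating extension. -/
noncomputable def ex (a : (Fin N → ℤ) → ℂ) : (Fin N → ℤ) → ℂ := alt fun g => a (g - rh N)

theorem pieri_ex (h : IsPieri α a) (β : Fin N → ℤ) (k : ℕ) :
    es α k * ex a β = ∑ I ∈ powersetCard k univ, ex a (β + ind I) := by
  unfold ex
  rw [alt_sum]
  by_cases hβ : Function.Injective β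
  · unfold alt
    rw [Finset.mul_sum]
    refine Finset.sum_congr rfl fun σ _ => ?_
    rw [mul_left_comm]
    congr 1
    set g := β ∘ σ with hg
    have hinj : Function.Injective g := hβ.comp σ.injective
    show es α k * a (g - rh N) = ∑ I ∈ powersetCard k (univ : Finset (Fin N)), a (g + ind I - rh N)
    by_cases hs : StrictAnti g
    · rw [h.pieri _ (strictAnti_iff.1 hs)]
      refine Finset.sum_congr rfl fun I _ => ?_
      congr 1
      abel
    · rw [h.zero _ fun hc => hs (strictAnti_iff.2 hc), mul_zero]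
      symm
      refine Finset.sum_eq_zero fun I _ => ?_
      apply h.zero
      intro hc
      have h1 := strictAnti_iff.2 hc
      apply hs
      intro i j hij
      have h2 := h1 hij
      have h3 : g i ≠ g j := fun e => hij.ne (hinj e)
      simp only [Pi.add_apply, ind] at h2
      split_ifs at h2 <;> omega
  · rw [alt_eq_zero _ hβ, alt_eq_zero _ hβ, mul_zero]

open MvPolynomial in
/-- The functional `X^m ↦ c(β + m)`. -/
noncomputable def LL (c : (Fin N → ℤ) → ℂ) (β : Fin N → ℤ) : MvPolynomial (Fin N) ℂ →ₗ[ℂ] ℂ :=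
  (basisMonomials (Fin N) ℂ).constr ℂ fun m => c (β + fun i => (m i : ℤ))

open MvPolynomial in
theorem LL_monomial (c : (Fin N → ℤ) → ℂ) (β : Fin N → ℤ) (m : Fin N →₀ ℕ) :
    LL c β (monomial m 1) = c (β + fun i => (m i : ℤ)) := by
  have h1 := (basisMonomials (Fin N) ℂ).constr_basis ℂ (fun m => c (β + fun i => (m i : ℤ))) m
  rw [coe_basisMonomials] at h1
  exact h1

open MvPolynomial in
theorem LL_esymm {c : (Fin N → ℤ) → ℂ} (hc : ∀ β k, es α k * c β = ∑ I ∈ powersetCard k univ, c (β + ind I))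
    (β : Fin N → ℤ) (f : MvPolynomial (Fin N) ℂ) (k : ℕ) :
    LL c β (f * esymm (Fin N) ℂ k) = es α k * LL c β f := by
  have key : ∀ m, LL c β (monomial m 1 * esymm (Fin N) ℂ k) = es α k * LL c β (monomial m 1) := by
    intro m
    rw [LL_monomial, hc, esymm_eq_sum_monomial, Finset.mul_sum, map_sum]
    refine Finset.sum_congr rfl fun I _ => ?_
    rw [monomial_mul, one_mul, LL_monomial]
    congr 1
    funext i
    simp only [Pi.add_apply, ind, Finsupp.add_apply, Finsupp.coe_finsetSum, Finset.sum_apply, Finsupp.single_apply]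
    rw [Finset.sum_ite_eq' I i]
    push_cast
    ring
  induction f using MvPolynomial.induction_on' with
  | monomial m z =>
    have h1 : (monomial m z : MvPolynomial (Fin N) ℂ) = z • monomial m 1 := by
      rw [smul_monomial, smul_eq_mul, mul_one]
    rw [h1, smul_mul_assoc, map_smul, key, map_smul, smul_eq_mul, smul_eq_mul]
    ring
  | add f g hf hg =>
    rw [add_mul, map_add, hf, hg, map_add, mul_add]

open MvPolynomial in
theorem LL_sym {c : (Fin N → ℤ) → ℂ} (hc : ∀ β k, es α k * c β = ∑ I ∈ powersetCard k univ, c (β + ind I))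
    (β : Fin N → ℤ) {s : MvPolynomial (Fin N) ℂ} (hs : s.IsSymmetric) (f : MvPolynomial (Fin N) ℂ) :
    LL c β (f * s) = eval α s * LL c β f := by
  obtain ⟨P, hP⟩ := esymmAlgHom_surjective (σ := Fin N) ℂ (n := N) (by simp) ⟨s, hs⟩
  have h1 : aeval (fun i : Fin N => esymm (Fin N) ℂ (i + 1)) P = s := by
    rw [← esymmAlgHom_apply, hP]
  rw [← h1]
  clear h1 hP hs s
  have he : ∀ k, eval α (esymm (Fin N) ℂ k) = es α k := by
    intro k
    simp [esymm, es]
  induction P using MvPolynomial.induction_on generalizing f with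
  | C z =>
    rw [aeval_C, algebraMap_eq, eval_C, mul_comm f, ← smul_eq_C_mul, map_smul, smul_eq_mul]
  | add P Q hP hQ =>
    rw [map_add, map_add, mul_add, map_add, hP, hQ, add_mul]
  | mul_X P i hP =>
    have h1 : aeval (fun i : Fin N => esymm (Fin N) ℂ (i + 1)) (P * X i) =
        aeval (fun i : Fin N => esymm (Fin N) ℂ (i + 1)) P * esymm (Fin N) ℂ (i + 1) := by rw [map_mul, aeval_X]
    rw [h1, ← mul_assoc, LL_esymm hc, hP, map_mul, he]
    ring

open MvPolynomial in
theorem power {c : (Fin N → ℤ) → ℂ} (hc : ∀ β k, es α k * c β = ∑ I ∈ powersetCard k univ, c (β + ind I))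
    (β : Fin N → ℤ) (k M : ℕ) :
    es (fun i => α i ^ M) k * c β = ∑ I ∈ powersetCard k univ, c (β + fun i => (M : ℤ) * ind I i) := by
  have hs : (expand M (esymm (Fin N) ℂ k)).IsSymmetric := by
    intro e
    rw [rename_expand, rename_esymm]
  have h1 := LL_sym hc β hs 1
  have h2 : LL c β 1 = c β := by
    have := LL_monomial c β 0
    rw [show (monomial (0 : Fin N →₀ ℕ) (1 : ℂ)) = 1 from rfl] at this
    rw [this]
    congr 1
    funext i
    simp
  have h3 : eval α (expand M (esymm (Fin N) ℂ k)) = es (fun i => α i ^ M) k := by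
    simp [esymm, es, expand]
  rw [one_mul, h2, h3] at h1
  rw [← h1, esymm_eq_sum_monomial, map_sum, map_sum]
  refine Finset.sum_congr rfl fun I _ => ?_
  rw [expand_monomial, LL_monomial]
  congr 1
  funext i
  simp only [Pi.add_apply, ind, Finsupp.smul_apply, Finsupp.coe_finsetSum, Finset.sum_apply, Finsupp.single_apply]
  rw [Finset.sum_ite_eq' I i, smul_eq_mul]
  push_cast
  split_ifs <;> simp

/-- Landau's inequality. -/
theorem landau (α : Fin N → ℂ) (M : ℕ) :
    (∏ i, max 1 ‖α i‖) ^ (2 * M) ≤ ∑ k ∈ range (N + 1), ‖es (fun i => α i ^ M) k‖ ^ 2 := by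
  classical
  set s : Multiset ℂ := (univ : Finset (Fin N)).val.map fun i => α i ^ M with hs
  have hcard : Multiset.card s = N := by simp [hs]
  set p : Polynomial ℂ := (s.map fun t => Polynomial.X - Polynomial.C t).prod with hp
  have hmon : p.Monic := Polynomial.monic_multiset_prod_of_monic _ _ fun t _ => Polynomial.monic_X_sub_C t
  have hdeg : p.natDegree = N := by
    rw [hp, Polynomial.natDegree_multiset_prod_X_sub_C_eq_card, hcard]
  have hroots : p.roots = s := Polynomial.roots_multiset_prod_X_sub_C s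
  have h1 : p.mahlerMeasure = (∏ i, max 1 ‖α i‖) ^ M := by
    rw [Polynomial.mahlerMeasure_eq_leadingCoeff_mul_prod_roots, hmon.leadingCoeff, hroots, norm_one, one_mul, hs,
      Multiset.map_map]
    show (∏ i, max 1 ‖α i ^ M‖) = _
    rw [← Finset.prod_pow]
    refine Finset.prod_congr rfl fun i _ => ?_
    rw [norm_pow]
    rcases le_total 1 ‖α i‖ with h | h
    · rw [max_eq_right h, max_eq_right (one_le_pow₀ h)]
    · rw [max_eq_left h, max_eq_left (pow_le_one₀ (norm_nonneg _) h), one_pow]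
  have h2 := Polynomial.mahlerMeasure_le_sqrt_sum_sq_norm_coeff p
  have h3 : ∑ i ∈ p.support, ‖p.coeff i‖ ^ 2 ≤ ∑ i ∈ range (N + 1), ‖p.coeff i‖ ^ 2 := by
    refine Finset.sum_le_sum_of_subset_of_nonneg ?_ fun _ _ _ => by positivity
    rw [← hdeg]
    exact Polynomial.supp_subset_range_natDegree_succ
  have h4 : ∑ i ∈ range (N + 1), ‖p.coeff i‖ ^ 2 = ∑ k ∈ range (N + 1), ‖es (fun i => α i ^ M) k‖ ^ 2 := by
    rw [← Finset.sum_range_reflect]
    refine Finset.sum_congr rfl fun k hk => ?_
    have hk' : k ≤ N := Nat.lt_succ_iff.1 (mem_range.1 hk)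
    have e1 : N + 1 - 1 - k = N - k := by omega
    have e2 : N - (N - k) = k := by omega
    rw [e1, hp, Multiset.prod_X_sub_C_coeff s (by rw [hcard]; omega), hcard, e2, norm_mul, norm_pow, norm_neg, norm_one,
      one_pow, one_mul, hs, Finset.esymm_map_val]
    rfl
  rw [pow_mul', ← h1]
  have h5 : p.mahlerMeasure ^ 2 ≤ ∑ i ∈ p.support, ‖p.coeff i‖ ^ 2 := by
    have h6 := pow_le_pow_left₀ (Polynomial.mahlerMeasure_nonneg p) h2 2
    rwa [Real.sq_sqrt (Finset.sum_nonneg fun _ _ => by positivity)] at h6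
  exact h5.trans (h3.trans h4.le)

/-- The sorted vector. -/
theorem exists_lam (M : ℕ) (J : Finset (Fin N)) : ∃ l : Fin N → ℤ, Antitone l ∧ (∀ i, 0 ≤ l i ∧ l i ≤ M) ∧
    ∀ a : (Fin N → ℤ) → ℂ, (∀ l, ¬ Antitone l → a l = 0) → ‖ex a (rh N + fun i => (M : ℤ) * ind J i)‖ ≤ ‖a l‖ := by
  set β : Fin N → ℤ := rh N + fun i => (M : ℤ) * ind J i with hβ
  have hb0 : ∀ i, 0 ≤ β i ∧ β i ≤ N - 1 + M := by
    intro i
    have hi : ((i : ℕ) : ℤ) < N := by exact_mod_cast i.2
    have h0 : (0 : ℤ) ≤ ((i : ℕ) : ℤ) := by positivity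
    have hM : (0 : ℤ) ≤ M := by positivity
    simp only [hβ, Pi.add_apply, rh, ind]
    split_ifs
    · constructor <;> linarith
    · constructor <;> linarith
  by_cases hinj : Function.Injective β
  · -- sort
    obtain ⟨σ, hσ⟩ : ∃ σ : Equiv.Perm (Fin N), StrictAnti (β ∘ σ) := by
      refine ⟨Tuple.sort (fun i => - β i), ?_⟩
      have h1 := Tuple.monotone_sort (fun i => - β i)
      intro i j hij
      have h2 := h1 hij.le
      simp only [Function.comp_apply] at h2 ⊢
      have h3 : β (Tuple.sort (fun i => - β i) i) ≠ β (Tuple.sort (fun i => - β i) j) := by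
        intro h
        exact hij.ne ((Tuple.sort (fun i => - β i)).injective (hinj h))
      omega
    refine ⟨β ∘ σ - rh N, strictAnti_iff.1 hσ, ?_, ?_⟩
    · have hanti := strictAnti_iff.1 hσ
      cases N with
      | zero => exact fun i => i.elim0
      | succ n =>
        intro i
        constructor
        · have h1 := hanti (Fin.le_last i)
          have h2 := (hb0 (σ (Fin.last n))).1
          simp only [Pi.sub_apply, Function.comp_apply, rh, Fin.val_last] at h1 ⊢
          push_cast at h1 ⊢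
          linarith
        · have h1 := hanti (Fin.zero_le i)
          have h2 := (hb0 (σ 0)).2
          simp only [Pi.sub_apply, Function.comp_apply, rh, Fin.val_zero] at h1 ⊢
          push_cast at h1 h2 ⊢
          linarith
    · intro a ha
      unfold ex alt
      rw [Finset.sum_eq_single σ]
      · rw [norm_mul]
        have : ‖((Equiv.Perm.sign σ : ℤ) : ℂ)‖ = 1 := by
          rcases Int.units_eq_one_or (Equiv.Perm.sign σ) with h | h <;> rw [h] <;> simp
        rw [this, one_mul]
      · intro τ _ hτ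
        show ((Equiv.Perm.sign τ : ℤ) : ℂ) * a (β ∘ τ - rh N) = 0
        rw [ha, mul_zero]
        intro hc
        have h1 := strictAnti_iff.2 hc
        apply hτ
        -- two sorting permutations agree
        have h2 : StrictMono ((σ⁻¹ * τ : Equiv.Perm (Fin N)) : Fin N → Fin N) := by
          intro i j hij
          have h3 : β (τ j) < β (τ i) := h1 hij
          by_contra hle
          push Not at hle
          have h4 := hσ.antitone hle
          have hσi : ∀ x, σ ((σ⁻¹ * τ : Equiv.Perm (Fin N)) x) = τ x := fun x => by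
            rw [← Equiv.Perm.mul_apply, mul_inv_cancel_left]
          simp only [Function.comp_apply, hσi] at h4
          omega
        have h5 : (σ⁻¹ * τ : Equiv.Perm (Fin N)) = 1 := by
          ext i
          have h6 : ((σ⁻¹ * τ : Equiv.Perm (Fin N)) : Fin N → Fin N) = id :=
            (StrictMono.range_inj h2 strictMono_id).1 (by
              rw [(σ⁻¹ * τ : Equiv.Perm (Fin N)).surjective.range_eq, Function.surjective_id.range_eq])
          rw [h6]
          rfl
        calc τ = σ * (σ⁻¹ * τ) := by group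
          _ = σ := by rw [h5, mul_one]
      · intro h
        exact absurd (mem_univ _) h
  · refine ⟨0, fun _ _ _ => le_rfl, fun i => ⟨le_rfl, by simp⟩, fun a _ => ?_⟩
    unfold ex
    rw [alt_eq_zero _ hinj, norm_zero]
    exact norm_nonneg _

/-- The value at `ρ`. -/
theorem ex_rh (ha : ∀ l, ¬ Antitone l → a l = 0) : ex a (rh N) = a 0 := by
  unfold ex alt
  rw [Finset.sum_eq_single 1]
  · simp
  · intro τ _ hτ
    show ((Equiv.Perm.sign τ : ℤ) : ℂ) * a (rh N ∘ τ - rh N) = 0
    rw [ha, mul_zero]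
    intro hc
    have h1 := strictAnti_iff.2 hc
    apply hτ
    have h2 : StrictMono (τ : Fin N → Fin N) := by
      intro i j hij
      have h3 : rh N (τ j) < rh N (τ i) := h1 hij
      unfold rh at h3
      rw [Fin.lt_def]
      omega
    have h6 : (τ : Fin N → Fin N) = id :=
      (StrictMono.range_inj h2 strictMono_id).1 (by rw [τ.surjective.range_eq, Function.surjective_id.range_eq])
    ext i
    rw [h6]
    rfl
  · intro h
    exact absurd (mem_univ _) h

/-- The main inequality of this file. -/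
theorem exists_bound (N M : ℕ) : ∃ l : Finset (Fin N) → (Fin N → ℤ),
    (∀ J, Antitone (l J) ∧ ∀ i, 0 ≤ l J i ∧ l J i ≤ M) ∧ ∀ (α : Fin N → ℂ) (a : (Fin N → ℤ) → ℂ), IsPieri α a →
      (∏ i, max 1 ‖α i‖) ^ (2 * M) * ‖a 0‖ ^ 2 ≤ ∑ J : Finset (Fin N), (N.choose #J : ℝ) * ‖a (l J)‖ ^ 2 := by
  choose l h1 h2 h3 using exists_lam (N := N) M
  refine ⟨l, fun J => ⟨h1 J, h2 J⟩, fun α a h => ?_⟩
  have hc := pieri_ex h
  calc (∏ i, max 1 ‖α i‖) ^ (2 * M) * ‖a 0‖ ^ 2 ≤
        (∑ k ∈ range (N + 1), ‖es (fun i => α i ^ M) k‖ ^ 2) * ‖a 0‖ ^ 2 :=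
        mul_le_mul_of_nonneg_right (landau α M) (by positivity)
    _ = ∑ k ∈ range (N + 1), ‖∑ I ∈ powersetCard k univ, ex a (rh N + fun i => (M : ℤ) * ind I i)‖ ^ 2 := by
        rw [Finset.sum_mul]
        refine Finset.sum_congr rfl fun k _ => ?_
        rw [← power hc, ex_rh h.zero, norm_mul, mul_pow]
    _ ≤ ∑ k ∈ range (N + 1), (N.choose k : ℝ) * ∑ I ∈ powersetCard k univ, ‖a (l I)‖ ^ 2 := by
        refine Finset.sum_le_sum fun k _ => ?_
        have h4 : ‖∑ I ∈ powersetCard k univ, ex a (rh N + fun i => (M : ℤ) * ind I i)‖ ≤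
            ∑ I ∈ powersetCard k (univ : Finset (Fin N)), ‖a (l I)‖ :=
          norm_sum_le_of_le _ fun I _ => h3 I a h.zero
        have h5 := sq_sum_le_card_mul_sum_sq (s := powersetCard k (univ : Finset (Fin N))) (f := fun I => ‖a (l I)‖)
        rw [card_powersetCard, card_univ, Fintype.card_fin] at h5
        exact (pow_le_pow_left₀ (norm_nonneg _) h4 2).trans h5
    _ = ∑ J : Finset (Fin N), (N.choose #J : ℝ) * ‖a (l J)‖ ^ 2 := by
        rw [← Finset.powerset_univ, Finset.sum_powerset, card_univ, Fintype.card_fin]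
        refine Finset.sum_congr rfl fun k _ => ?_
        rw [Finset.mul_sum]
        refine Finset.sum_congr rfl fun I hI => ?_
        rw [(mem_powersetCard.1 hI).2]

/-- The sum of the coefficients. -/
theorem sum_coeff (N : ℕ) : ∑ J : Finset (Fin N), (N.choose #J : ℝ) = ((2 * N).choose N : ℝ) := by
  rw [← Finset.powerset_univ, Finset.sum_powerset, card_univ, Fintype.card_fin, ← Nat.sum_range_choose_sq]
  push_cast
  refine Finset.sum_congr rfl fun k _ => ?_
  have h1 : ∀ I ∈ powersetCard k (univ : Finset (Fin N)), (N.choose #I : ℝ) = N.choose k := fun I hI => by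
    rw [(mem_powersetCard.1 hI).2]
  rw [Finset.sum_congr rfl h1, Finset.sum_const, card_powersetCard, card_univ, Fintype.card_fin, nsmul_eq_mul, sq]

end Pool.Agent.H496.R10
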