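import Mathlib
import Pool.Agent.H496.R8.Top

/-! The Whittaker coefficient transforms by the character under the real points of the unipotent group. -/

set_option autoImplicit false
set_option linter.unusedSectionVars false
set_option linter.style.haveILetI false

namespace Pool.Agent.H496.R10

open MeasureTheory Matrix Set Pool.Agent.H496.R8
open scoped ComplexConjugate ENNReal Pointwise Classical

variable {R : Type*} [CommRing R] [TopologicalSpace R] [IsTopologicalRing R] [MeasurableSpace R] [BorelSpace R]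
  [SecondCountableTopology R] [T2Space R] {r : ℕ} {O : Subring R} {D : Set R}

theorem isU_mul {u v : Matrix (Fin r) (Fin r) R} (hu : IsU u) (hv : IsU v) : IsU (u * v) := by
  induction r with
  | zero => exact ⟨fun i => i.elim0, fun i => i.elim0⟩
  | succ r ih =>
    rw [← isU_eq hu, ← isU_eq hv, ext_mul]
    exact isU_ext (ih (isU_top hu) (isU_top hv)) _

theorem psi_mul (χ : AddChar R Circle) (μ : ℕ → R) {u v : Matrix (Fin r) (Fin r) R} (hu : IsU u) (hv : IsU v) :
    psi χ μ (u * v) = psi χ μ u * psi χ μ v := by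
  induction r with
  | zero => simp [psi]
  | succ r ih =>
    cases r with
    | zero => rw [psi_small, psi_small, psi_small, one_mul]
    | succ r =>
      have e1 : u * v = R8.ext (top u * top v) (top u *ᵥ R8.col v + R8.col u) := by
        conv_lhs => rw [← isU_eq hu, ← isU_eq hv]
        rw [ext_mul]
      rw [e1, psi_ext, ih (isU_top hu) (isU_top hv)]
      conv_rhs => rw [← isU_eq hu, ← isU_eq hv, psi_ext, psi_ext]
      rw [chr_add]
      have e2 : chr χ μ (top u *ᵥ R8.col v) = chr χ μ (R8.col v) := by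
        unfold chr
        rw [isU_mulVec_last (isU_top hu)]
      rw [e2]
      ring

theorem isUO_adj {O : Subring R} {u : Matrix (Fin r) (Fin r) R} (hu : IsUO O u) : IsUO O u.adjugate := by
  induction r with
  | zero => exact ⟨⟨fun i => i.elim0, fun i => i.elim0⟩, fun i => i.elim0⟩
  | succ r ih =>
    have h1 : IsUO O (top u) := ⟨isU_top hu.1, fun i j => hu.2 _ _⟩
    rw [← isU_eq hu.1, adj_ext (isU_det (isU_top hu.1))]
    refine isUO_ext (ih h1) fun i => ?_
    show -(∑ j, (top u).adjugate i j * R8.col u j) ∈ O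
    exact O.neg_mem (O.sum_mem fun j _ => O.mul_mem ((ih h1).2 i j) (hu.2 _ _))

theorem psi_lat {O : Subring R} {χ : AddChar R Circle} {μ : ℕ → R} {u : Matrix (Fin (r + 1)) (Fin (r + 1)) R}
    (hμ : ∀ i < r, IsDual O χ (μ i)) (hu : IsUO O u) : psi χ μ u = 1 := by
  induction r with
  | zero => exact psi_small _ _ _
  | succ r ih =>
    rw [← isU_eq hu.1, psi_ext, ih (fun i hi => hμ i (by omega)) ⟨isU_top hu.1, fun i j => hu.2 _ _⟩,
      chr_lat (hμ r (by omega)) (b := R8.col u) (mem_Lat.2 fun i => hu.2 _ _), one_mul]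

variable (m : Measure R) [SigmaFinite m] [IsFiniteMeasureOnCompacts m] [m.IsAddLeftInvariant] [m.IsNegInvariant]

/-- Affine unimodular changes of variables in integrals of periodic functions. -/
theorem int_lat (hP : IsPair O D) {o : Matrix (Fin r) (Fin r) R} (ho : IsUO O o) (s : Fin r → R)
    {φ : (Fin r → R) → ℂ} (hφ : ∀ l ∈ Lat O r, ∀ b, φ (l + b) = φ b) :
    ∫ b in univ.pi fun _ : Fin r => D, φ (o *ᵥ b + s) ∂(Measure.pi fun _ : Fin r => m) =
      ∫ b in univ.pi fun _ : Fin r => D, φ b ∂(Measure.pi fun _ : Fin r => m) := by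
  haveI := Lat_countable hP r
  have ho' := isUO_adj ho
  have hmul : ∀ {a : Matrix (Fin r) (Fin r) R}, IsUO O a → ∀ l ∈ Lat O r, a *ᵥ l ∈ Lat O r := by
    intro a ha l hl
    rw [mem_Lat]
    intro i
    show ∑ j, a i j * l j ∈ O
    exact O.sum_mem fun j _ => O.mul_mem (ha.2 i j) (mem_Lat.1 hl j)
  have e1 : ∀ b : Fin r → R, o.adjugate *ᵥ (o *ᵥ b) = b := fun b => by
    rw [mulVec_mulVec, adj_mul_self (isU_det ho.1), one_mulVec]
  have e2 : ∀ b : Fin r → R, o *ᵥ (o.adjugate *ᵥ b) = b := fun b => by
    rw [mulVec_mulVec, mul_adj_self (isU_det ho.1), one_mulVec]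
  let T : (Fin r → R) ≃ₜ (Fin r → R) :=
    { toFun := fun b => o *ᵥ b + s
      invFun := fun b => o.adjugate *ᵥ (b - s)
      left_inv := fun b => by
        show o.adjugate *ᵥ (o *ᵥ b + s - s) = b
        rw [add_sub_cancel_right, e1]
      right_inv := fun b => by
        show o *ᵥ (o.adjugate *ᵥ (b - s)) + s = b
        rw [e2, sub_add_cancel]
      continuous_toFun := by
        refine continuous_pi fun i => ?_
        show Continuous fun b : Fin r → R => (∑ j, o i j * b j) + s i
        fun_prop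
      continuous_invFun := by
        refine continuous_pi fun i => ?_
        show Continuous fun b : Fin r → R => ∑ j, o.adjugate i j * (b j - s j)
        fun_prop }
  have hT : MeasurePreserving T (Measure.pi fun _ : Fin r => m) (Measure.pi fun _ : Fin r => m) :=
    (measurePreserving_add_right (Measure.pi fun _ : Fin r => m) s).comp (mulVec_mp r ho.1)
  let e : Lat O r ≃ Lat O r :=
    { toFun := fun l => ⟨o.adjugate *ᵥ l.1, hmul ho' _ l.2⟩
      invFun := fun l => ⟨o *ᵥ l.1, hmul ho _ l.2⟩
      left_inv := fun l => Subtype.ext (e2 l.1)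
      right_inv := fun l => Subtype.ext (e1 l.1) }
  have hfd := Lat_fd hP m r
  have hT' : MeasurePreserving T.symm (Measure.pi fun _ : Fin r => m) (Measure.pi fun _ : Fin r => m) :=
    hT.symm T.toMeasurableEquiv
  have hfd2 : IsAddFundamentalDomain (Lat O r) (T '' univ.pi fun _ : Fin r => D) (Measure.pi fun _ : Fin r => m) :=
    hfd.image_of_equiv T.toEquiv hT'.quasiMeasurePreserving e (fun g b => by
      show o *ᵥ (o.adjugate *ᵥ g.1 + b) + s = g.1 + (o *ᵥ b + s)
      rw [mulVec_add, e2, add_assoc])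
  have h1 := hfd.setIntegral_eq hfd2 (f := φ) (fun g x => hφ g.1 g.2 x)
  rw [h1]
  exact (hT.setIntegral_image_emb T.measurableEmbedding φ _).symm

/-- Locally bounded functions. -/
def LB {X : Type*} [TopologicalSpace X] (F : X → ℂ) : Prop := ∀ K : Set X, IsCompact K → ∃ c : ℝ, ∀ x ∈ K, ‖F x‖ ≤ c

theorem lb_int (hP : IsPair O D) {F : Matrix (Fin r) (Fin r) R → ℂ} (hF : Measurable F) (hb : LB F) :
    Integrable F (uMeas (m.restrict D) r) := by
  haveI := fin_restrict hP m
  obtain ⟨CD, hCD, hD⟩ := hP.bdd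
  obtain ⟨c, hc⟩ := hb _ (isCompact_cpt hCD r)
  have h1 : ∀ᵐ x ∂(m.restrict D), x ∈ CD := by
    filter_upwards [ae_restrict_mem hP.meas] with x hx using hD hx
  refine Integrable.of_bound hF.aestronglyMeasurable c ?_
  filter_upwards [ae_cpt (ν := m.restrict D) hCD h1 r] with u hu using hc u hu.1

theorem fold (hP : IsPair O D) : ∀ (r : ℕ) (F : Matrix (Fin r) (Fin r) R → ℂ), Measurable F → LB F →
    (∀ o u, IsUO O o → IsU u → F (o * u) = F u) → ∀ v, IsU v →
    ∫ u, F (u * v) ∂(uMeas (m.restrict D) r) = ∫ u, F u ∂(uMeas (m.restrict D) r) := by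
  haveI := fin_restrict hP m
  intro r
  induction r with
  | zero =>
    intro F _ _ _ v _
    have : ∀ u : Matrix (Fin 0) (Fin 0) R, u * v = u := fun u => Subsingleton.elim _ _
    simp_rw [this]
  | succ r ih =>
    intro F hF hb hinv v hv
    have hmv : Continuous fun u : Matrix (Fin (r + 1)) (Fin (r + 1)) R => u * v := by fun_prop
    have hF' : Measurable fun u => F (u * v) := hF.comp hmv.measurable
    have hb' : LB fun u => F (u * v) := by
      intro K hK
      obtain ⟨c, hc⟩ := hb _ (hK.image hmv)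
      exact ⟨c, fun u hu => hc _ ⟨u, hu, rfl⟩⟩
    rw [integral_succ _ hF' (lb_int m hP hF' hb'), integral_succ _ hF (lb_int m hP hF hb)]
    set F1 : Matrix (Fin r) (Fin r) R → ℂ := fun u => ∫ b, F (R8.ext u b) ∂(Measure.pi fun _ : Fin r => m.restrict D)
      with hF1
    have hpi : (Measure.pi fun _ : Fin r => m.restrict D) =
        (Measure.pi fun _ : Fin r => m).restrict (univ.pi fun _ => D) := (Measure.restrict_pi_pi _ _).symm
    have hper : ∀ u, IsU u → ∀ l ∈ Lat O r, ∀ b, F (R8.ext u (l + b)) = F (R8.ext u b) := by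
      intro u hu l hl b
      have h1 := hinv (R8.ext 1 l) (R8.ext u b) (isUO_ext isUO_one (mem_Lat.1 hl)) (isU_ext hu b)
      rw [ext_mul, one_mul, one_mulVec, add_comm b l] at h1
      exact h1
    have hF1m : Measurable F1 := meas_int (hF.comp measurable_ext)
    have hF1b : LB F1 := by
      intro K hK
      obtain ⟨CD, hCD, hD⟩ := hP.bdd
      obtain ⟨c, hc⟩ := hb _ ((hK.prod (isCompact_univ_pi fun _ : Fin r => hCD)).image continuous_ext)
      refine ⟨c * ((Measure.pi fun _ : Fin r => m).real (univ.pi fun _ : Fin r => D)), fun u hu => ?_⟩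
      rw [hF1]
      dsimp only
      rw [hpi]
      refine norm_setIntegral_le_of_norm_le_const ?_ fun b hbD => hc _ ⟨(u, b), ⟨hu, fun i hi => hD (hbD i hi)⟩, rfl⟩
      have := measure_lt_top (Measure.pi fun _ : Fin r => m.restrict D) univ
      rwa [hpi, Measure.restrict_apply_univ] at this
    have hF1i : ∀ o u, IsUO O o → IsU u → F1 (o * u) = F1 u := by
      intro o u ho hu
      rw [hF1]
      dsimp only
      rw [hpi, ← int_lat m hP ho 0 (φ := fun b => F (R8.ext (o * u) b)) (hper _ (isU_mul ho.1 hu))]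
      refine integral_congr_ae (Filter.Eventually.of_forall fun b => ?_)
      dsimp only
      have h1 := hinv (R8.ext o 0) (R8.ext u b) (isUO_ext ho fun i => O.zero_mem) (isU_ext hu b)
      rw [ext_mul] at h1
      exact h1
    have h2 := ih F1 hF1m hF1b hF1i (top v) (isU_top hv)
    rw [← h2]
    refine integral_congr_ae ?_
    filter_upwards [ae_isU (ν := m.restrict D) r] with u hu
    rw [hF1]
    dsimp only
    rw [hpi, ← int_lat m hP (isUO_one (r := r)) (u *ᵥ R8.col v) (φ := fun b => F (R8.ext (u * top v) b))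
      (hper _ (isU_mul hu (isU_top hv)))]
    refine integral_congr_ae (Filter.Eventually.of_forall fun b => ?_)
    dsimp only
    conv_lhs => rw [← isU_eq hv, ext_mul]
    rw [one_mulVec, add_comm b]

variable {n : ℕ} {H : Type*} [Group H] [TopologicalSpace H] [IsTopologicalGroup H] [SecondCountableTopology H]
  [T2Space H] [MeasurableSpace H] [BorelSpace H] {E : H →* Matrix (Fin (n + 1)) (Fin (n + 1)) R}

/-- `W(x) = ψ(v) W(vx)`. -/
theorem Wh_uni {χ : AddChar R Circle} {μ : ℕ → R} (hP : IsPair O D) (hχ : Continuous χ)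
    (hμ : ∀ i < n, IsDual O χ (μ i)) (hE : IsMatGroup E) {f : H → ℂ} (hf : Continuous f)
    (hinv : ∀ o x, IsUO O (E o) → f (o * x) = f x) {v : H} (hv : IsU (E v)) (x : H) :
    R8.Wh E m D χ μ f x = psi χ μ (E v) * R8.Wh E m D χ μ f (v * x) := by
  haveI := fin_restrict hP m
  set F : Matrix (Fin (n + 1)) (Fin (n + 1)) R → ℂ := fun u => psi χ μ u * f (sl E u * x) with hF
  have hFm : Measurable F :=
    (continuous_psi hχ μ).measurable.mul (hf.measurable.comp ((measurable_sl hE).mul_const x))
  have hFb : LB F := by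
    intro K hK
    have hc : Continuous fun y : H => f (y * x) := hf.comp (continuous_mul_const x)
    obtain ⟨c, hc⟩ := (hE.emb.isCompact_preimage hK).exists_bound_of_continuousOn hc.continuousOn
    refine ⟨|c| + ‖f (1 * x)‖, fun u hu => ?_⟩
    rw [hF]
    dsimp only
    rw [norm_mul, norm_psi, one_mul]
    by_cases h : u ∈ range E
    · obtain ⟨y, rfl⟩ := h
      rw [sl_coe hE]
      have := (hc y hu).trans (le_abs_self c)
      have h0 := norm_nonneg (f (1 * x))
      linarith
    · rw [sl_neg h]
      have := abs_nonneg c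
      linarith
  have hFi : ∀ o u, IsUO O o → IsU u → F (o * u) = F u := by
    intro o u ho hu
    rw [hF]
    dsimp only
    rw [psi_mul χ μ ho.1 hu, psi_lat hμ ho, one_mul, sl_mul hE (hE.uni _ ho.1) (hE.uni _ hu), mul_assoc, hinv]
    rw [sl_val (hE.uni _ ho.1)]
    exact ho
  have h1 := fold m hP (n + 1) F hFm hFb hFi (E v) hv
  unfold R8.Wh
  rw [← h1, ← integral_const_mul]
  refine integral_congr_ae ?_
  filter_upwards [ae_isU (ν := m.restrict D) (n + 1)] with u hu
  rw [hF]
  dsimp only
  rw [psi_mul χ μ hu hv, sl_mul hE (hE.uni _ hu) ⟨v, rfl⟩, sl_coe hE, mul_assoc (sl E u)]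
  ring

end Pool.Agent.H496.R10
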