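import Mathlib
import Pool.Agent.H496.R10.Alg
import Pool.Agent.H496.R10.Fold

/-! Hecke operators and Whittaker coefficients. -/

set_option autoImplicit false
set_option linter.unusedSectionVars false
set_option linter.style.haveILetI false

namespace Pool.Agent.H496.R10

open MeasureTheory Matrix Set Pool.Agent.H496.R8
open scoped ComplexConjugate ENNReal Pointwise Classical

variable {R : Type*} [CommRing R] [TopologicalSpace R] [IsTopologicalRing R] [MeasurableSpace R] [BorelSpace R]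
  [SecondCountableTopology R] [T2Space R] {n : ℕ}
variable {H : Type*} [Group H] [TopologicalSpace H] [IsTopologicalGroup H] [SecondCountableTopology H] [T2Space H]
  [MeasurableSpace H] [BorelSpace H]

/-- The exponent of the modulus. -/
def DD {n : ℕ} (l : Fin n → ℤ) : ℤ := ∑ i, ∑ j, if i < j then l i - l j else 0

theorem dg_add {R : Type*} [CommRing R] {n : ℕ} (P : Place R) (l l' : Fin n → ℤ) : dg P (l + l') = dg P l * dg P l' := by
  funext i
  simp only [dg, Pi.add_apply, Pi.mul_apply, Finset.sum_add_distrib, _root_.zpow_add]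
  exact mul_mul_mul_comm _ _ _ _

theorem dg_zero {R : Type*} [CommRing R] {n : ℕ} (P : Place R) : dg P (0 : Fin n → ℤ) = 1 := by
  funext i
  simp [dg]

variable {E : H →* Matrix (Fin (n + 1)) (Fin (n + 1)) R} {P : Place R} {ρ : Rˣ →* ℝ} {χ : AddChar R Circle} {μ : ℕ → R}

theorem tor_val (h : IsPlace E ρ χ μ P) (l : Fin (n + 1) → ℤ) :
    E (tor E P l) = diagonal fun i => (dg P l i : R) := sl_val (h.mem l)

theorem tor_add (hE : IsMatGroup E) (h : IsPlace E ρ χ μ P) (l l' : Fin (n + 1) → ℤ) :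
    tor E P (l + l') = tor E P l * tor E P l' := by
  apply hE.emb.injective
  rw [map_mul, tor_val h, tor_val h, tor_val h, diagonal_mul_diagonal, dg_add]
  rfl

theorem tor_zero (hE : IsMatGroup E) (h : IsPlace E ρ χ μ P) : tor E P 0 = 1 := by
  apply hE.emb.injective
  rw [map_one, tor_val h, dg_zero]
  simp

theorem psi_eq (χ : AddChar R Circle) (μ : ℕ → R) (V : Matrix (Fin (n + 1)) (Fin (n + 1)) R) :
    psi χ μ V = χ (∑ i : Fin n, μ i * V i.castSucc i.succ) := by
  unfold psi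
  congr 2
  rw [Fin.sum_univ_castSucc]
  have h1 : (∑ j : Fin (n + 1), if (j : ℕ) = (Fin.last n : Fin (n + 1)) + 1 then
      μ (Fin.last n : Fin (n + 1)) * V (Fin.last n) j else 0) = 0 := by
    refine Finset.sum_eq_zero fun j _ => ?_
    rw [if_neg]
    rw [Fin.val_last]
    have := j.2
    omega
  rw [h1, add_zero]
  refine Finset.sum_congr rfl fun i _ => ?_
  rw [Finset.sum_eq_single i.succ]
  · rw [if_pos (by simp)]
    rfl
  · intro j _ hj
    rw [if_neg]
    intro h
    apply hj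
    apply Fin.ext
    rw [h]
    simp
  · intro h
    exact absurd (Finset.mem_univ _) h

theorem conj_tor (hE : IsMatGroup E) (h : IsPlace E ρ χ μ P) (l : Fin (n + 1) → ℤ)
    {u : Matrix (Fin (n + 1)) (Fin (n + 1)) R} (hu : IsU u) (i j : Fin (n + 1)) :
    E (tor E P l * sl E u * (tor E P l)⁻¹) i j = ((P.ϖ ^ (l i - l j) : Rˣ) : R) * u i j := by
  rw [map_mul, map_mul, sl_val (hE.uni _ hu), E_inv_diag (tor_val h l), tor_val h l, mul_diagonal, diagonal_mul]
  have h1 : dg P l i * (dg P l j)⁻¹ = P.ϖ ^ (l i - l j) := by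
    unfold dg
    rw [mul_inv, mul_mul_mul_comm, mul_inv_cancel, one_mul, _root_.zpow_sub]
  rw [← h1, Units.val_mul]
  ring

theorem conj_tor_isU (hE : IsMatGroup E) (h : IsPlace E ρ χ μ P) (l : Fin (n + 1) → ℤ)
    {u : Matrix (Fin (n + 1)) (Fin (n + 1)) R} (hu : IsU u) : IsU (E (tor E P l * sl E u * (tor E P l)⁻¹)) := by
  refine ⟨fun i j hij => ?_, fun i => ?_⟩
  · rw [conj_tor hE h l hu, hu.1 i j hij, mul_zero]
  · rw [conj_tor hE h l hu, hu.2 i, sub_self, zpow_zero, mul_one, Units.val_one]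

theorem pow_mem (h : IsPlace E ρ χ μ P) (k : ℕ) {x : R} (hx : x ∈ P.o) : ((P.ϖ ^ k : Rˣ) : R) * x ∈ P.o := by
  induction k with
  | zero => rw [pow_zero, Units.val_one, one_mul]; exact hx
  | succ k ih => rw [pow_succ', Units.val_mul, mul_assoc]; exact h.mul _ ih

theorem q_pos {m : Measure R} (h : IsPlace E ρ χ μ P) (hρ : IsMod m ρ) : 0 < P.q := by
  have h1 := (hρ P.ϖ).1
  rw [h.mod] at h1
  exact inv_pos.1 h1

theorem modU_dg {m : Measure R} (h : IsPlace E ρ χ μ P) (hρ : IsMod m ρ) (l : Fin (n + 1) → ℤ) :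
    modU ρ (dg P l) = (Real.sqrt P.q ^ (DD l))⁻¹ ^ 2 := by
  have hq := q_pos h hρ
  have hs : 0 < Real.sqrt P.q := Real.sqrt_pos.2 hq
  have h1 : ∀ i j, ρ (dg P l i * (dg P l j)⁻¹) = (Real.sqrt P.q ^ (l i - l j))⁻¹ ^ 2 := by
    intro i j
    have h2 : dg P l i * (dg P l j)⁻¹ = P.ϖ ^ (l i - l j) := by
      unfold dg
      rw [mul_inv, mul_mul_mul_comm, mul_inv_cancel, one_mul, _root_.zpow_sub]
    rw [h2]
    have h3 : ρ (P.ϖ ^ (l i - l j)) = (ρ P.ϖ) ^ (l i - l j) := by
      have := map_zpow (Units.map ρ |>.comp (toUnits : Rˣ ≃* (Rˣ)ˣ).toMonoidHom) P.ϖ (l i - l j)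
      have h4 := congrArg Units.val this
      rw [Units.val_zpow_eq_zpow_val] at h4
      exact h4
    rw [h3, h.mod, _root_.inv_zpow, inv_pow]
    congr 1
    rw [← zpow_natCast, ← _root_.zpow_mul, mul_comm, _root_.zpow_mul, zpow_natCast, Real.sq_sqrt hq.le]
  unfold modU
  simp_rw [h1]
  have h5 : ∀ i j : Fin (n + 1), (if i < j then (Real.sqrt P.q ^ (l i - l j))⁻¹ ^ 2 else 1) =
      (Real.sqrt P.q ^ (if i < j then l i - l j else 0))⁻¹ ^ 2 := by
    intro i j
    split_ifs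
    · rfl
    · simp
  simp_rw [h5]
  rw [DD]
  have h6 : ∀ (s : Finset (Fin (n + 1))) (c : Fin (n + 1) → ℤ), Real.sqrt P.q ^ (∑ i ∈ s, c i) = ∏ i ∈ s, Real.sqrt P.q ^ (c i) := by
    intro s c
    induction s using Finset.induction_on with
    | empty => simp
    | insert i s hi ih => rw [Finset.sum_insert hi, Finset.prod_insert hi, zpow_add₀ hs.ne', ih]
  rw [h6, ← Finset.prod_inv_distrib, ← Finset.prod_pow]
  refine Finset.prod_congr rfl fun i _ => ?_
  rw [h6, ← Finset.prod_inv_distrib, ← Finset.prod_pow]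

/-- The numbers of pairs. -/
def nA {n : ℕ} (I : Finset (Fin n)) : ℕ := ∑ p : Fin n × Fin n, if p.1 < p.2 ∧ p.1 ∈ I ∧ p.2 ∉ I then 1 else 0

def nB {n : ℕ} (I : Finset (Fin n)) : ℕ := ∑ p : Fin n × Fin n, if p.1 < p.2 ∧ p.1 ∉ I ∧ p.2 ∈ I then 1 else 0

theorem nA_add_nB {n : ℕ} (I : Finset (Fin n)) : nA I + nB I = I.card * (n - I.card) := by
  have h1 : nB I = ∑ p : Fin n × Fin n, if p.2 < p.1 ∧ p.1 ∈ I ∧ p.2 ∉ I then 1 else 0 := by
    unfold nB
    rw [← (Equiv.prodComm (Fin n) (Fin n)).sum_comp]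
    refine Finset.sum_congr rfl fun p _ => ?_
    simp only [Equiv.prodComm_apply, Prod.fst_swap, Prod.snd_swap]
    congr 1
    exact propext ⟨fun h => ⟨h.1, h.2.2, h.2.1⟩, fun h => ⟨h.1, h.2.2, h.2.1⟩⟩
  rw [h1, nA, ← Finset.sum_add_distrib]
  have h2 : ∀ p : Fin n × Fin n, ((if p.1 < p.2 ∧ p.1 ∈ I ∧ p.2 ∉ I then 1 else 0) +
      (if p.2 < p.1 ∧ p.1 ∈ I ∧ p.2 ∉ I then 1 else 0) : ℕ) = if p ∈ I ×ˢ Iᶜ then 1 else 0 := by
    intro p
    simp only [Finset.mem_product, Finset.mem_compl]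
    by_cases ha : p.1 ∈ I <;> by_cases hb : p.2 ∈ I <;> simp only [ha, hb, not_true_eq_false, and_false, and_true,
      not_false_eq_true, if_false, if_true, false_and, add_zero, true_and]
    have hne : p.1 ≠ p.2 := fun h => hb (h ▸ ha)
    rcases lt_or_gt_of_ne hne with h | h
    · rw [if_pos h, if_neg (not_lt.2 h.le)]
    · rw [if_neg (not_lt.2 h.le), if_pos h]
  simp_rw [h2]
  rw [Finset.sum_ite_mem, Finset.univ_inter, Finset.sum_const, Finset.card_product, Finset.card_compl, Fintype.card_fin]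
  simp

theorem DD_add_ind {n : ℕ} (l : Fin n → ℤ) (I : Finset (Fin n)) : DD (l + ind I) = DD l + nA I - nB I := by
  have h1 : DD (l + ind I) = DD l + DD (ind I) := by
    unfold DD
    rw [← Finset.sum_add_distrib]
    refine Finset.sum_congr rfl fun i _ => ?_
    rw [← Finset.sum_add_distrib]
    refine Finset.sum_congr rfl fun j _ => ?_
    simp only [Pi.add_apply]
    split_ifs <;> ring
  have h2 : DD (ind I) = nA I - nB I := by
    unfold DD nA nB
    rw [← Finset.sum_product' (s := Finset.univ) (t := Finset.univ) (f := fun i j => if i < j then ind I i - ind I j else 0)]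
    push_cast
    rw [← Finset.sum_sub_distrib]
    refine Finset.sum_congr rfl fun p _ => ?_
    unfold ind
    by_cases ha : p.1 ∈ I <;> by_cases hb : p.2 ∈ I <;> by_cases hc : p.1 < p.2 <;> simp [ha, hb, hc]
  rw [h1, h2]
  ring

theorem card_pi (P : Place R) (I : Finset (Fin (n + 1))) :
    (Fintype.piFinset (fun p : Fin (n + 1) × Fin (n + 1) => if p.1 < p.2 ∧ p.1 ∈ I ∧ p.2 ∉ I then P.rep else {0})).card =
      P.rep.card ^ nA I := by
  rw [Fintype.card_piFinset, nA, ← Finset.prod_pow_eq_pow_sum]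
  refine Finset.prod_congr rfl fun p _ => ?_
  split_ifs <;> simp

end Pool.Agent.H496.R10
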