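import Mathlib
import Pool.Agent.H496.R10.Hecke

/-! The Whittaker coefficients of a Hecke eigenfunction satisfy the Pieri relations. -/

set_option autoImplicit false
set_option linter.unusedSectionVars false
set_option linter.style.haveILetI false

namespace Pool.Agent.H496.R10

open MeasureTheory Matrix Set Pool.Agent.H496.R8
open scoped ComplexConjugate ENNReal Pointwise Classical

variable {R : Type*} [CommRing R] [TopologicalSpace R] [IsTopologicalRing R] [MeasurableSpace R] [BorelSpace R]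
  [SecondCountableTopology R] [T2Space R] {n : ℕ}
variable {H : Type*} [Group H] [TopologicalSpace H] [IsTopologicalGroup H] [SecondCountableTopology H] [T2Space H]
  [MeasurableSpace H] [BorelSpace H]
variable {E : H →* Matrix (Fin (n + 1)) (Fin (n + 1)) R} {P : Place R} {ρ : Rˣ →* ℝ} {χ : AddChar R Circle} {μ : ℕ → R}
  {O : Subring R} {D : Set R} (m : Measure R) [SigmaFinite m] [IsFiniteMeasureOnCompacts m]
  [m.IsAddLeftInvariant] [m.IsNegInvariant]

theorem Wh_translate (f : H → ℂ) (h x : H) :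
    R8.Wh E m D χ μ (fun y => f (y * h)) x = R8.Wh E m D χ μ f (x * h) := by
  unfold R8.Wh
  simp only [mul_assoc]

theorem integrand (hP : IsPair O D) (hχ : Continuous χ) (hE : IsMatGroup E) {f : H → ℂ} (hf : Continuous f) (x : H) :
    Integrable (fun u => psi χ μ u * f (sl E u * x)) (uMeas (m.restrict D) (n + 1)) := by
  refine lb_int m hP ?_ ?_
  · exact (continuous_psi hχ μ).measurable.mul (hf.measurable.comp ((measurable_sl hE).mul_const x))
  · intro K hK
    have hc : Continuous fun y : H => f (y * x) := hf.comp (continuous_mul_const x)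
    obtain ⟨c, hc⟩ := (hE.emb.isCompact_preimage hK).exists_bound_of_continuousOn hc.continuousOn
    refine ⟨|c| + ‖f (1 * x)‖, fun u hu => ?_⟩
    rw [norm_mul, norm_psi, one_mul]
    by_cases h : u ∈ range E
    · obtain ⟨y, rfl⟩ := h
      rw [sl_coe hE]
      have := (hc y hu).trans (le_abs_self c)
      have h0 := norm_nonneg (f (1 * x))
      linarith
    · rw [sl_neg h]
      have := abs_nonneg c
      linarith

theorem Wh_sum (hP : IsPair O D) (hχ : Continuous χ) (hE : IsMatGroup E) {ι : Type*} (s : Finset ι) {f : ι → H → ℂ}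
    (hf : ∀ i, Continuous (f i)) (x : H) :
    R8.Wh E m D χ μ (fun y => ∑ i ∈ s, f i y) x = ∑ i ∈ s, R8.Wh E m D χ μ (f i) x := by
  unfold R8.Wh
  rw [← integral_finsetSum _ fun i _ => integrand m hP hχ hE (hf i) x]
  refine integral_congr_ae (Filter.Eventually.of_forall fun u => ?_)
  dsimp only
  rw [Finset.mul_sum]

theorem psi_one {V : Matrix (Fin (n + 1)) (Fin (n + 1)) R} (h : ∀ i : Fin n, χ (μ i * V i.castSucc i.succ) = 1) :
    psi χ μ V = 1 := by
  rw [psi_eq]
  have key : ∀ s : Finset (Fin n), χ (∑ i ∈ s, μ i * V i.castSucc i.succ) = 1 := by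
    intro s
    induction s using Finset.induction_on with
    | empty => rw [Finset.sum_empty, AddChar.map_zero_eq_one]
    | insert i s hi ih => rw [Finset.sum_insert hi, AddChar.map_add_eq_mul, ih, h, one_mul]
  rw [key, Circle.coe_one]

/-- The values at non dominant elements vanish. -/
theorem Wh_zero (hP : IsPair O D) (hχ : Continuous χ) (hμ : ∀ i < n, IsDual O χ (μ i)) (hE : IsMatGroup E)
    {f : H → ℂ} (hf : Continuous f) (hinv : ∀ o x, IsUO O (E o) → f (o * x) = f x) (h : IsPlace E ρ χ μ P)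
    {α : Fin (n + 1) → ℂ} (hH : IsHecke E P α f) {g : H} (hg : IsAway E P g) {l : Fin (n + 1) → ℤ} (hl : ¬ Antitone l) :
    R8.Wh E m D χ μ f (tor E P l * g) = 0 := by
  rw [Fin.antitone_iff_succ_le] at hl
  push Not at hl
  obtain ⟨i, hi⟩ := hl
  obtain ⟨k, hk⟩ : ∃ k : ℕ, l i.succ - l i.castSucc = k + 1 := ⟨(l i.succ - l i.castSucc - 1).toNat, by omega⟩
  obtain ⟨x, hx, hne⟩ := h.nontriv i i.2
  set x' := ((P.ϖ ^ k : Rˣ) : R) * x with hx'
  have hx'o : x' ∈ P.o := pow_mem h k hx
  set u : Matrix (Fin (n + 1)) (Fin (n + 1)) R := 1 + Matrix.single i.castSucc i.succ x' with hu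
  have hent : ∀ a b, u a b = (1 : Matrix (Fin (n + 1)) (Fin (n + 1)) R) a b +
      if i.castSucc = a ∧ i.succ = b then x' else 0 := fun a b => by
    rw [hu, Matrix.add_apply, Matrix.single_apply]
  have huU : IsU u := by
    refine ⟨fun a b hab => ?_, fun a => ?_⟩
    · rw [hent, Matrix.one_apply_ne hab.ne', zero_add, if_neg]
      rintro ⟨rfl, rfl⟩
      exact absurd hab (not_lt.2 (Fin.castSucc_lt_succ).le)
    · rw [hent, Matrix.one_apply_eq, if_neg, add_zero]
      rintro ⟨rfl, h2⟩
      exact absurd h2 (Fin.castSucc_lt_succ).ne'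
  have huI : IsInt P u := by
    refine ⟨huU, fun a b hab => ?_⟩
    rw [hent, Matrix.one_apply_ne hab.ne, zero_add]
    split_ifs
    · exact hx'o
    · exact P.o.zero_mem
  set v := tor E P l * sl E u * (tor E P l)⁻¹ with hv
  have hvU : IsU (E v) := conj_tor_isU hE h l huU
  have hpsi : psi χ μ (E v) = (χ (μ i * ((P.ϖ⁻¹ : Rˣ) * x)) : ℂ) := by
    rw [psi_eq]
    congr 2
    rw [Finset.sum_eq_single i]
    · rw [hv, conj_tor hE h l huU, hent, Matrix.one_apply_ne (Fin.castSucc_lt_succ).ne, zero_add, if_pos ⟨rfl, rfl⟩, hx']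
      congr 1
      rw [← mul_assoc, ← Units.val_mul]
      congr 2
      have e1 : l i.castSucc - l i.succ = -((k : ℤ) + 1) := by omega
      rw [e1, ← zpow_natCast, ← _root_.zpow_add, neg_add_rev]
      have e2 : (-1 : ℤ) + -(k : ℤ) + (k : ℤ) = -1 := by ring
      rw [e2, _root_.zpow_neg_one]
    · intro a _ ha
      rw [hv, conj_tor hE h l huU, hent, Matrix.one_apply_ne (Fin.castSucc_lt_succ).ne, zero_add, if_neg, mul_zero,
        mul_zero]
      rintro ⟨h1, _⟩
      exact ha (Fin.castSucc_injective _ h1).symm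
    · intro h0
      exact absurd (Finset.mem_univ _) h0
  have h1 := Wh_uni m hP hχ hμ hE hf hinv hvU (tor E P l * g)
  have e1 : v * (tor E P l * g) = tor E P l * g * sl E u := by
    rw [hv]
    have := (hg.uni u huI).eq
    calc tor E P l * sl E u * (tor E P l)⁻¹ * (tor E P l * g) = tor E P l * (sl E u * g) := by group
      _ = tor E P l * (g * sl E u) := by rw [this]
      _ = _ := by rw [mul_assoc]
  have e2 : R8.Wh E m D χ μ f (tor E P l * g * sl E u) = R8.Wh E m D χ μ f (tor E P l * g) := by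
    rw [← Wh_translate]
    congr 1
    funext y
    exact hH.inv u huI y
  rw [e1, e2, hpsi] at h1
  by_contra hW
  apply hne
  have h3 : (χ (μ i * ((P.ϖ⁻¹ : Rˣ) * x)) : ℂ) = 1 := by
    have h4 : ((χ (μ i * ((P.ϖ⁻¹ : Rˣ) * x)) : ℂ) - 1) * R8.Wh E m D χ μ f (tor E P l * g) = 0 := by
      rw [sub_mul, one_mul, ← h1, sub_self]
    exact sub_eq_zero.1 ((mul_eq_zero.1 h4).resolve_right hW)
  exact Circle.coe_eq_one.1 h3

/-- The Hecke relation for the values at dominant elements. -/
theorem Wh_hecke (hP : IsPair O D) (hχ : Continuous χ) (hμ : ∀ i < n, IsDual O χ (μ i)) (hE : IsMatGroup E)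
    {f : H → ℂ} (hf : Continuous f) (hinv : ∀ o x, IsUO O (E o) → f (o * x) = f x) (h : IsPlace E ρ χ μ P)
    {α : Fin (n + 1) → ℂ} (hH : IsHecke E P α f) {g : H} (hg : IsAway E P g) {l : Fin (n + 1) → ℤ} (hl : Antitone l)
    {k : ℕ} (hk : k ≤ n + 1) :
    (Real.sqrt P.q : ℂ) ^ (k * (n + 1 - k)) * es α k * R8.Wh E m D χ μ f (tor E P l * g) =
      ∑ I ∈ Finset.powersetCard k (Finset.univ : Finset (Fin (n + 1))),
        (P.q : ℂ) ^ nA I * R8.Wh E m D χ μ f (tor E P (l + ind I) * g) := by
  have h1 : (Real.sqrt P.q : ℂ) ^ (k * (n + 1 - k)) * es α k * R8.Wh E m D χ μ f (tor E P l * g) =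
      R8.Wh E m D χ μ (hecke E P k f) (tor E P l * g) := by
    unfold R8.Wh
    rw [← integral_const_mul]
    refine integral_congr_ae (Filter.Eventually.of_forall fun u => ?_)
    dsimp only
    rw [hH.eig k hk]
    ring
  rw [h1]
  have hc : ∀ (I : Finset (Fin (n + 1))) (v : Fin (n + 1) × Fin (n + 1) → R), Continuous fun x : H =>
      f (x * sl E (1 + Matrix.of fun i j => v (i, j)) * tor E P (ind I)) := by
    intro I v
    exact hf.comp ((continuous_mul_const _).comp (continuous_mul_const _))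
  have h2 : R8.Wh E m D χ μ (hecke E P k f) (tor E P l * g) =
      ∑ I ∈ Finset.powersetCard k (Finset.univ : Finset (Fin (n + 1))),
        ∑ v ∈ Fintype.piFinset (fun p : Fin (n + 1) × Fin (n + 1) => if p.1 < p.2 ∧ p.1 ∈ I ∧ p.2 ∉ I then P.rep else {0}),
          R8.Wh E m D χ μ (fun x => f (x * sl E (1 + Matrix.of fun i j => v (i, j)) * tor E P (ind I)))
            (tor E P l * g) := by
    show R8.Wh E m D χ μ (fun x => ∑ I ∈ Finset.powersetCard k (Finset.univ : Finset (Fin (n + 1))),
        ∑ v ∈ Fintype.piFinset (fun p : Fin (n + 1) × Fin (n + 1) => if p.1 < p.2 ∧ p.1 ∈ I ∧ p.2 ∉ I then P.rep else {0}),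
          f (x * sl E (1 + Matrix.of fun i j => v (i, j)) * tor E P (ind I))) (tor E P l * g) = _
    rw [Wh_sum m hP hχ hE _ fun I => continuous_finsetSum _ fun v _ => hc I v]
    refine Finset.sum_congr rfl fun I _ => ?_
    rw [Wh_sum m hP hχ hE _ fun v => hc I v]
  rw [h2]
  refine Finset.sum_congr rfl fun I _ => ?_
  have h3 : ∀ v ∈ Fintype.piFinset (fun p : Fin (n + 1) × Fin (n + 1) => if p.1 < p.2 ∧ p.1 ∈ I ∧ p.2 ∉ I then P.rep else {0}),
      R8.Wh E m D χ μ (fun x => f (x * sl E (1 + Matrix.of fun i j => v (i, j)) * tor E P (ind I))) (tor E P l * g) =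
        R8.Wh E m D χ μ f (tor E P (l + ind I) * g) := by
    intro v hv
    rw [Fintype.mem_piFinset] at hv
    set u : Matrix (Fin (n + 1)) (Fin (n + 1)) R := 1 + Matrix.of fun i j => v (i, j) with hu
    have hzero : ∀ a b, ¬ a < b → v (a, b) = 0 := by
      intro a b hab
      have := hv (a, b)
      rw [if_neg (fun hc => hab hc.1), Finset.mem_singleton] at this
      exact this
    have hmem : ∀ a b, v (a, b) ∈ P.o := by
      intro a b
      have := hv (a, b)
      split_ifs at this
      · exact h.rep _ this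
      · rw [Finset.mem_singleton.1 this]; exact P.o.zero_mem
    have huU : IsU u := by
      refine ⟨fun a b hab => ?_, fun a => ?_⟩
      · rw [hu, Matrix.add_apply, Matrix.one_apply_ne hab.ne', Matrix.of_apply, hzero a b (not_lt.2 hab.le), add_zero]
      · rw [hu, Matrix.add_apply, Matrix.one_apply_eq, Matrix.of_apply, hzero a a (lt_irrefl _), add_zero]
    have huI : IsInt P u := by
      refine ⟨huU, fun a b hab => ?_⟩
      rw [hu, Matrix.add_apply, Matrix.one_apply_ne hab.ne, Matrix.of_apply, zero_add]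
      exact hmem a b
    set w := tor E P l * sl E u * (tor E P l)⁻¹ with hw
    have hwU : IsU (E w) := conj_tor_isU hE h l huU
    have hpsi : psi χ μ (E w) = 1 := by
      refine psi_one fun i => ?_
      rw [hw, conj_tor hE h l huU]
      obtain ⟨d, hd⟩ : ∃ d : ℕ, l i.castSucc - l i.succ = d :=
        ⟨(l i.castSucc - l i.succ).toNat, by have := hl (Fin.castSucc_lt_succ (i := i)).le; omega⟩
      rw [hd, zpow_natCast]
      exact h.triv i i.2 _ (pow_mem h d (huI.2 _ _ Fin.castSucc_lt_succ))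
    have e0 := Wh_uni m hP hχ hμ hE hf hinv hwU (tor E P (l + ind I) * g)
    rw [hpsi, one_mul] at e0
    rw [e0]
    have e1 : R8.Wh E m D χ μ (fun x => f (x * sl E u * tor E P (ind I))) (tor E P l * g) =
        R8.Wh E m D χ μ f (tor E P l * g * (sl E u * tor E P (ind I))) := by
      unfold R8.Wh
      simp only [mul_assoc]
    rw [e1]
    congr 1
    rw [hw, tor_add hE h]
    have e2 := (hg.uni u huI).eq
    have e3 := (hg.tor (ind I)).eq
    calc tor E P l * g * (sl E u * tor E P (ind I)) = tor E P l * (g * sl E u) * tor E P (ind I) := by group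
      _ = tor E P l * sl E u * (g * tor E P (ind I)) := by rw [e2]; group
      _ = tor E P l * sl E u * (tor E P (ind I) * g) := by rw [e3]
      _ = _ := by group
  rw [Finset.sum_congr rfl h3, Finset.sum_const, card_pi, nsmul_eq_mul, Place.q]
  push_cast
  rfl

theorem pieri_Wh (hP : IsPair O D) (hχ : Continuous χ) (hμ : ∀ i < n, IsDual O χ (μ i)) (hE : IsMatGroup E)
    {f : H → ℂ} (hf : Continuous f) (hinv : ∀ o x, IsUO O (E o) → f (o * x) = f x) (h : IsPlace E ρ χ μ P)
    (hρ : IsMod m ρ) {α : Fin (n + 1) → ℂ} (hH : IsHecke E P α f) {g : H} (hg : IsAway E P g) :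
    IsPieri α fun l => (Real.sqrt P.q : ℂ) ^ DD l * R8.Wh E m D χ μ f (tor E P l * g) := by
  have hq := q_pos h hρ
  have hs : 0 < Real.sqrt P.q := Real.sqrt_pos.2 hq
  have hsC : (Real.sqrt P.q : ℂ) ≠ 0 := by exact_mod_cast hs.ne'
  have hs2 : (P.q : ℂ) = (Real.sqrt P.q : ℂ) ^ 2 := by
    rw [← Complex.ofReal_pow, Real.sq_sqrt hq.le]
  refine ⟨fun l hl => by rw [Wh_zero m hP hχ hμ hE hf hinv h hH hg hl, mul_zero], fun l hl k => ?_⟩
  by_cases hk : k ≤ n + 1
  · have h1 := Wh_hecke m hP hχ hμ hE hf hinv h hH hg hl hk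
    have h2 : (Real.sqrt P.q : ℂ) ^ (k * (n + 1 - k)) *
        (es α k * ((Real.sqrt P.q : ℂ) ^ DD l * R8.Wh E m D χ μ f (tor E P l * g))) =
        (Real.sqrt P.q : ℂ) ^ (k * (n + 1 - k)) * ∑ I ∈ Finset.powersetCard k (Finset.univ : Finset (Fin (n + 1))),
          (Real.sqrt P.q : ℂ) ^ DD (l + ind I) * R8.Wh E m D χ μ f (tor E P (l + ind I) * g) := by
      calc _ = (Real.sqrt P.q : ℂ) ^ DD l * ((Real.sqrt P.q : ℂ) ^ (k * (n + 1 - k)) * es α k *
              R8.Wh E m D χ μ f (tor E P l * g)) := by ring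
        _ = _ := by
          rw [h1, Finset.mul_sum, Finset.mul_sum]
          refine Finset.sum_congr rfl fun I hI => ?_
          have hc := (Finset.mem_powersetCard.1 hI).2
          have hAB := nA_add_nB I
          rw [hc] at hAB
          rw [hs2, ← mul_assoc, ← mul_assoc]
          congr 1
          rw [DD_add_ind, ← hAB, ← pow_mul, ← zpow_natCast, ← zpow_natCast, ← zpow_add₀ hsC, ← zpow_add₀ hsC]
          congr 1
          push_cast
          ring
    exact mul_left_cancel₀ (pow_ne_zero _ hsC) h2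
  · have h3 : Finset.powersetCard k (Finset.univ : Finset (Fin (n + 1))) = ∅ := by
      rw [Finset.powersetCard_eq_empty, Finset.card_univ, Fintype.card_fin]
      omega
    rw [es, h3]
    simp

end Pool.Agent.H496.R10
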