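import Mathlib
import Pool.Agent.H496.R10.Pieri

/-! Several places. -/

set_option autoImplicit false
set_option linter.unusedSectionVars false
set_option linter.style.haveILetI false

namespace Pool.Agent.H496.R10

open MeasureTheory Matrix Set Pool.Agent.H496.R8
open scoped ComplexConjugate ENNReal Pointwise Classical

variable {R : Type*} [CommRing R] [TopologicalSpace R] [IsTopologicalRing R] [MeasurableSpace R] [BorelSpace R]
  [SecondCountableTopology R] [T2Space R] {n : ℕ}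
variable {H : Type*} [Group H] [TopologicalSpace H] [IsTopologicalGroup H] [SecondCountableTopology H] [T2Space H]
  [MeasurableSpace H] [BorelSpace H]
variable {E : H →* Matrix (Fin (n + 1)) (Fin (n + 1)) R} {ρ : Rˣ →* ℝ} {χ : AddChar R Circle} {μ : ℕ → R}
  {O : Subring R} {D : Set R} (m : Measure R) [SigmaFinite m] [IsFiniteMeasureOnCompacts m]
  [m.IsAddLeftInvariant] [m.IsNegInvariant]

theorem modU_mul (ρ : Rˣ →* ℝ) (a b : Fin n → Rˣ) : modU ρ (a * b) = modU ρ a * modU ρ b := by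
  unfold modU
  rw [← Finset.prod_mul_distrib]
  refine Finset.prod_congr rfl fun i _ => ?_
  rw [← Finset.prod_mul_distrib]
  refine Finset.prod_congr rfl fun j _ => ?_
  split_ifs
  · rw [← map_mul]
    congr 1
    simp only [Pi.mul_apply, mul_inv]
    exact mul_mul_mul_comm _ _ _ _
  · rw [one_mul]

/-- The element of `H` given by elements at several places. -/
noncomputable def torS {ι : Type*} (E : H →* Matrix (Fin (n + 1)) (Fin (n + 1)) R) (P : ι → Place R) (S : Finset ι)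
    (l : ι → Fin (n + 1) → ℤ) : H :=
  sl E (diagonal fun i => ((∏ p ∈ S, dg (P p) (l p)) i : R))

theorem torS_mem {ι : Type*} {P : ι → Place R} {S : Finset ι} (h : ∀ p ∈ S, IsPlace E ρ χ μ (P p))
    (l : ι → Fin (n + 1) → ℤ) : (diagonal fun i => ((∏ p ∈ S, dg (P p) (l p)) i : R)) ∈ range E := by
  induction S using Finset.induction_on with
  | empty =>
    refine ⟨1, ?_⟩
    simp
  | insert p S hp ih =>
    obtain ⟨x, hx⟩ := ih fun p hp => h p (Finset.mem_insert_of_mem hp)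
    refine ⟨tor E (P p) (l p) * x, ?_⟩
    rw [map_mul, hx, tor_val (h p (Finset.mem_insert_self _ _)), diagonal_mul_diagonal, Finset.prod_insert hp]
    rfl

theorem torS_val {ι : Type*} {P : ι → Place R} {S : Finset ι} (h : ∀ p ∈ S, IsPlace E ρ χ μ (P p))
    (l : ι → Fin (n + 1) → ℤ) : E (torS E P S l) = diagonal fun i => ((∏ p ∈ S, dg (P p) (l p)) i : R) :=
  sl_val (torS_mem h l)

theorem zpow_fix {ϖ : Rˣ} {x : R} (h : (ϖ : R) * x = x) (k : ℤ) : ((ϖ ^ k : Rˣ) : R) * x = x := by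
  have hn : ∀ k : ℕ, ((ϖ ^ k : Rˣ) : R) * x = x := by
    intro k
    induction k with
    | zero => rw [pow_zero, Units.val_one, one_mul]
    | succ k ih => rw [pow_succ, Units.val_mul, mul_assoc, h, ih]
  rcases Int.eq_nat_or_neg k with ⟨d, rfl | rfl⟩
  · rw [zpow_natCast]; exact hn d
  · rw [_root_.zpow_neg, zpow_natCast]
    calc (((ϖ ^ d)⁻¹ : Rˣ) : R) * x = (((ϖ ^ d)⁻¹ : Rˣ) : R) * (((ϖ ^ d : Rˣ) : R) * x) := by rw [hn d]
      _ = x := by rw [← mul_assoc, Units.inv_mul, one_mul]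

theorem away_tor {P Q : Place R} (hE : IsMatGroup E) (hP : IsPlace E ρ χ μ P) (hQ : IsPlace E ρ χ μ Q)
    (hfix : ∀ x ∈ Q.o, (P.ϖ : R) * x = x) {g : H} (hg : IsAway E Q g) (l : Fin (n + 1) → ℤ) :
    IsAway E Q (tor E P l * g) := by
  refine ⟨fun u hu => ?_, fun l' => ?_⟩
  · refine Commute.mul_left ?_ (hg.uni u hu)
    have h1 : tor E P l * sl E u * (tor E P l)⁻¹ = sl E u := by
      apply hE.emb.injective
      ext i j
      rw [conj_tor hE hP l hu.1, sl_val (hE.uni _ hu.1)]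
      rcases lt_trichotomy i j with h | h | h
      · exact zpow_fix (hfix _ (hu.2 i j h)) _
      · rw [h, sub_self, zpow_zero, Units.val_one, one_mul]
      · rw [hu.1.1 i j h, mul_zero]
    show tor E P l * sl E u = sl E u * tor E P l
    calc tor E P l * sl E u = tor E P l * sl E u * (tor E P l)⁻¹ * tor E P l := by group
      _ = _ := by rw [h1]
  · refine Commute.mul_left ?_ (hg.tor l')
    show tor E P l * tor E Q l' = tor E Q l' * tor E P l
    apply hE.emb.injective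
    rw [map_mul, map_mul, tor_val hP, tor_val hQ, diagonal_mul_diagonal, diagonal_mul_diagonal]
    congr 1
    funext i
    exact mul_comm _ _

theorem one_place (hP : IsPair O D) (hχ : Continuous χ) (hμ : ∀ i < n, IsDual O χ (μ i)) (hE : IsMatGroup E)
    (hρ : IsMod m ρ) (M : ℕ) : ∃ l : Finset (Fin (n + 1)) → (Fin (n + 1) → ℤ),
    (∀ J, Antitone (l J) ∧ ∀ i, 0 ≤ l J i ∧ l J i ≤ M) ∧ ∀ (P : Place R), IsPlace E ρ χ μ P →
      ∀ (α : Fin (n + 1) → ℂ) (f : H → ℂ), Continuous f → (∀ o x, IsUO O (E o) → f (o * x) = f x) → IsHecke E P α f →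
        ∀ g : H, IsAway E P g → (∏ i, max 1 ‖α i‖) ^ (2 * M) * ‖R8.Wh E m D χ μ f g‖ ^ 2 ≤
          ∑ J : Finset (Fin (n + 1)), ((n + 1).choose J.card : ℝ) *
            ((modU ρ (dg P (l J)))⁻¹ * ‖R8.Wh E m D χ μ f (tor E P (l J) * g)‖ ^ 2) := by
  obtain ⟨l, hl, hb⟩ := exists_bound (n + 1) M
  refine ⟨l, hl, fun P h α f hf hinv hH g hg => ?_⟩
  have h1 := hb α _ (pieri_Wh m hP hχ hμ hE hf hinv h hρ hH hg)
  have hq := q_pos h hρ
  have hs : 0 < Real.sqrt P.q := Real.sqrt_pos.2 hq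
  have e0 : DD (0 : Fin (n + 1) → ℤ) = 0 := by simp [DD]
  rw [e0, zpow_zero, one_mul, tor_zero hE h, one_mul] at h1
  refine h1.trans (le_of_eq ?_)
  refine Finset.sum_congr rfl fun J _ => ?_
  congr 1
  rw [modU_dg h hρ, norm_mul, mul_pow, norm_zpow, Complex.norm_real, Real.norm_of_nonneg hs.le, inv_pow, inv_inv]

theorem multi {ι J : Type*} [Fintype J] {P : ι → Place R} {M : ι → ℕ} (hP : IsPair O D) (hχ : Continuous χ)
    (hμ : ∀ i < n, IsDual O χ (μ i)) (hE : IsMatGroup E) (hρ : IsMod m ρ) {f : J → H → ℂ} (hf : ∀ j, Continuous (f j))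
    (hinv : ∀ j o x, IsUO O (E o) → f j (o * x) = f j x) {α : ι → J → Fin (n + 1) → ℂ} {c : J → ℝ} (hc : ∀ j, 0 ≤ c j)
    (S : Finset ι) (hpl : ∀ p ∈ S, IsPlace E ρ χ μ (P p)) (hH : ∀ p ∈ S, ∀ j, IsHecke E (P p) (α p j) (f j))
    (hfix : ∀ p ∈ S, ∀ p' ∈ S, p ≠ p' → ∀ x ∈ (P p').o, ((P p).ϖ : R) * x = x) :
    ∀ (g : H) (B : ℝ), (∀ p ∈ S, IsAway E (P p) g) →
      (∀ l : ι → Fin (n + 1) → ℤ, (∀ p ∈ S, Antitone (l p) ∧ ∀ i, 0 ≤ l p i ∧ l p i ≤ M p) →
        ∑ j, c j * ‖R8.Wh E m D χ μ (f j) (torS E P S l * g)‖ ^ 2 ≤ modU ρ (∏ p ∈ S, dg (P p) (l p)) * B) →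
      ∑ j, c j * (∏ p ∈ S, (∏ i, max 1 ‖α p j i‖) ^ (2 * M p)) * ‖R8.Wh E m D χ μ (f j) g‖ ^ 2 ≤
        ((2 * (n + 1)).choose (n + 1) : ℝ) ^ S.card * B := by
  induction S using Finset.induction_on with
  | empty =>
    intro g B _ hB
    have h1 := hB (fun _ => 0) (fun p hp => absurd hp (Finset.notMem_empty _))
    have e1 : torS E P (∅ : Finset ι) (fun _ => 0) = 1 := by
      apply hE.emb.injective
      rw [torS_val (ρ := ρ) (χ := χ) (μ := μ) (fun p hp => absurd hp (Finset.notMem_empty _)), map_one]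
      simp
    have e2 : modU ρ (∏ p ∈ (∅ : Finset ι), dg (P p) ((fun _ => 0 : ι → Fin (n + 1) → ℤ) p)) = 1 := by
      rw [Finset.prod_empty]
      unfold modU
      simp
    rw [e1, e2, one_mul] at h1
    simpa using h1
  | insert p S hp ih =>
    intro g B hg hB
    have ih' := ih (fun q hq => hpl q (Finset.mem_insert_of_mem hq)) (fun q hq => hH q (Finset.mem_insert_of_mem hq))
      (fun q hq q' hq' => hfix q (Finset.mem_insert_of_mem hq) q' (Finset.mem_insert_of_mem hq'))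
    have hpp := hpl p (Finset.mem_insert_self _ _)
    obtain ⟨l, hl, hb⟩ := one_place m hP hχ hμ hE hρ (M p)
    have hstep : ∀ j, (∏ i, max 1 ‖α p j i‖) ^ (2 * M p) * ‖R8.Wh E m D χ μ (f j) g‖ ^ 2 ≤
        ∑ I : Finset (Fin (n + 1)), ((n + 1).choose I.card : ℝ) *
          ((modU ρ (dg (P p) (l I)))⁻¹ * ‖R8.Wh E m D χ μ (f j) (tor E (P p) (l I) * g)‖ ^ 2) := fun j =>
      hb (P p) hpp (α p j) (f j) (hf j) (hinv j) (hH p (Finset.mem_insert_self _ _) j) g
        (hg p (Finset.mem_insert_self _ _))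
    have hIH : ∀ I : Finset (Fin (n + 1)), ∑ j, c j * (∏ q ∈ S, (∏ i, max 1 ‖α q j i‖) ^ (2 * M q)) *
        ‖R8.Wh E m D χ μ (f j) (tor E (P p) (l I) * g)‖ ^ 2 ≤
        ((2 * (n + 1)).choose (n + 1) : ℝ) ^ S.card * (modU ρ (dg (P p) (l I)) * B) := by
      intro I
      refine ih' _ _ (fun q hq => ?_) (fun l' hl' => ?_)
      · exact away_tor hE hpp (hpl q (Finset.mem_insert_of_mem hq))
          (hfix p (Finset.mem_insert_self _ _) q (Finset.mem_insert_of_mem hq) (fun h => hp (h ▸ hq)))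
          (hg q (Finset.mem_insert_of_mem hq)) _
      · have h1 := hB (Function.update l' p (l I)) (by
          intro q hq
          by_cases hqp : q = p
          · subst hqp
            rw [Function.update_self]
            exact hl I
          · rw [Function.update_of_ne hqp]
            exact hl' q ((Finset.mem_insert.1 hq).resolve_left hqp))
        have e0 : (∏ q ∈ insert p S, dg (P q) (Function.update l' p (l I) q)) =
            dg (P p) (l I) * ∏ q ∈ S, dg (P q) (l' q) := by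
          rw [Finset.prod_insert hp, Function.update_self]
          congr 1
          refine Finset.prod_congr rfl fun q hq => ?_
          have hqp : q ≠ p := fun h => hp (h ▸ hq)
          rw [Function.update_of_ne hqp]
        have e1 : torS E P (insert p S) (Function.update l' p (l I)) * g = torS E P S l' * (tor E (P p) (l I) * g) := by
          rw [← mul_assoc]
          congr 1
          apply hE.emb.injective
          rw [torS_val hpl, map_mul, torS_val (fun q hq => hpl q (Finset.mem_insert_of_mem hq)), tor_val hpp,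
            diagonal_mul_diagonal, e0]
          congr 1
          funext i
          rw [Pi.mul_apply, Units.val_mul, mul_comm]
        rw [e1, e0, modU_mul] at h1
        refine h1.trans (le_of_eq ?_)
        ring
    have hpos : ∀ I, 0 < modU ρ (dg (P p) (l I)) := fun I => modU_pos hρ _
    calc ∑ j, c j * (∏ q ∈ insert p S, (∏ i, max 1 ‖α q j i‖) ^ (2 * M q)) * ‖R8.Wh E m D χ μ (f j) g‖ ^ 2
        = ∑ j, c j * (∏ q ∈ S, (∏ i, max 1 ‖α q j i‖) ^ (2 * M q)) *
            ((∏ i, max 1 ‖α p j i‖) ^ (2 * M p) * ‖R8.Wh E m D χ μ (f j) g‖ ^ 2) := by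
          refine Finset.sum_congr rfl fun j _ => ?_
          rw [Finset.prod_insert hp]
          ring
      _ ≤ ∑ j, c j * (∏ q ∈ S, (∏ i, max 1 ‖α q j i‖) ^ (2 * M q)) *
            ∑ I : Finset (Fin (n + 1)), ((n + 1).choose I.card : ℝ) *
              ((modU ρ (dg (P p) (l I)))⁻¹ * ‖R8.Wh E m D χ μ (f j) (tor E (P p) (l I) * g)‖ ^ 2) := by
          refine Finset.sum_le_sum fun j _ => mul_le_mul_of_nonneg_left (hstep j) ?_
          exact mul_nonneg (hc j) (Finset.prod_nonneg fun q _ => by positivity)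
      _ = ∑ I : Finset (Fin (n + 1)), ((n + 1).choose I.card : ℝ) * ((modU ρ (dg (P p) (l I)))⁻¹ *
            ∑ j, c j * (∏ q ∈ S, (∏ i, max 1 ‖α q j i‖) ^ (2 * M q)) *
              ‖R8.Wh E m D χ μ (f j) (tor E (P p) (l I) * g)‖ ^ 2) := by
          simp_rw [Finset.mul_sum]
          rw [Finset.sum_comm]
          refine Finset.sum_congr rfl fun I _ => Finset.sum_congr rfl fun j _ => ?_
          ring
      _ ≤ ∑ I : Finset (Fin (n + 1)), ((n + 1).choose I.card : ℝ) *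
            (((2 * (n + 1)).choose (n + 1) : ℝ) ^ S.card * B) := by
          refine Finset.sum_le_sum fun I _ => mul_le_mul_of_nonneg_left ?_ (Nat.cast_nonneg _)
          calc _ ≤ (modU ρ (dg (P p) (l I)))⁻¹ * (((2 * (n + 1)).choose (n + 1) : ℝ) ^ S.card *
                (modU ρ (dg (P p) (l I)) * B)) := mul_le_mul_of_nonneg_left (hIH I) (inv_nonneg.2 (hpos I).le)
            _ = ((modU ρ (dg (P p) (l I)))⁻¹ * modU ρ (dg (P p) (l I))) * (((2 * (n + 1)).choose (n + 1) : ℝ) ^ S.card *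
                B) := by ring
            _ = _ := by rw [inv_mul_cancel₀ (hpos I).ne', one_mul]
      _ = _ := by
          rw [← Finset.sum_mul, sum_coeff, Finset.card_insert_of_notMem hp, pow_succ]
          ring

theorem small_of_range {ι : Type*} {P : ι → Place R} {S : Finset ι} {M : ι → ℕ}
    (hpl : ∀ p ∈ S, IsPlace E ρ χ μ (P p)) {N : R → ℝ} {Q : ℝ} {C : Set H} {g : H} (h : IsRange E N Q C g P S M)
    {l : ι → Fin (n + 1) → ℤ} (hl : ∀ p ∈ S, Antitone (l p) ∧ ∀ i, 0 ≤ l p i ∧ l p i ≤ M p) :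
    IsSmallSet E N Q C (torS E P S l * g) := by
  intro b hb b' hb'
  obtain ⟨h1, h2⟩ := h b hb b' hb'
  set A := ∏ p ∈ S, dg (P p) (l p) with hA
  have e1 : torS E P S l * g * (b' * b⁻¹) * (torS E P S l * g)⁻¹ =
      torS E P S l * (g * (b' * b⁻¹) * g⁻¹) * (torS E P S l)⁻¹ := by group
  have e2 : ∀ j, E (torS E P S l * g * (b' * b⁻¹) * (torS E P S l * g)⁻¹) (Fin.last n) j =
      ((A (Fin.last n) * (A j)⁻¹ : Rˣ) : R) * E (g * (b' * b⁻¹) * g⁻¹) (Fin.last n) j := by
    intro j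
    rw [e1, map_mul, map_mul, E_inv_diag (torS_val hpl l), torS_val hpl l, mul_diagonal, diagonal_mul, Units.val_mul]
    ring
  refine ⟨fun j => ?_, ?_⟩
  · rw [e2]
    have e3 : A (Fin.last n) * (A j.castSucc)⁻¹ =
        (∏ p ∈ S, (P p).ϖ ^ (l p j.castSucc - l p (Fin.last n)).toNat)⁻¹ := by
      rw [hA, Finset.prod_apply, Finset.prod_apply, ← Finset.prod_inv_distrib, ← Finset.prod_inv_distrib,
        ← Finset.prod_mul_distrib]
      refine Finset.prod_congr rfl fun p hp => ?_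
      have h3 : 0 ≤ l p j.castSucc - l p (Fin.last n) := by
        have := (hl p hp).1 (Fin.le_last j.castSucc)
        omega
      unfold dg
      rw [mul_inv, mul_mul_mul_comm, mul_inv_cancel, one_mul, ← zpow_natCast, Int.toNat_of_nonneg h3,
        _root_.zpow_sub, mul_inv, inv_inv, mul_comm]
    rw [e3]
    refine h1 _ (fun p hp => ?_) j
    have h4 := ((hl p hp).2 j.castSucc).2
    have h5 := ((hl p hp).2 (Fin.last n)).1
    omega
  · rw [e2, mul_inv_cancel, Units.val_one, one_mul]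
    exact h2

variable {vol : Measure H} [SigmaFinite vol] [IsFiniteMeasureOnCompacts vol] [vol.IsMulLeftInvariant] {κ : H → ℂ}

theorem kk_torus (hE : IsMatGroup E) {g t : H} {a : Fin (n + 1) → Rˣ} (ht : E t = diagonal fun i => (a i : R))
    (u : Matrix (Fin (n + 1)) (Fin (n + 1)) R) : kk E vol κ (t * g) (cj a u) = kk E vol κ g u := by
  have key : ∀ x : H, E (t * x * t⁻¹) = cj a (E x) := by
    intro x
    rw [map_mul, map_mul, ht, E_inv_diag ht]
    ext i j
    rw [mul_diagonal, diagonal_mul]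
    rfl
  unfold kk
  by_cases hu : u ∈ range E
  · have hu2 := hu
    obtain ⟨x, rfl⟩ := hu2
    have h1 : cj a (E x) ∈ range E := ⟨t * x * t⁻¹, key x⟩
    rw [if_pos hu, if_pos h1, ← key x, sl_coe hE, sl_coe hE]
    congr 1
    group
  · have h1 : cj a u ∉ range E := by
      rintro ⟨y, hy⟩
      apply hu
      refine ⟨t⁻¹ * y * t, ?_⟩
      have h2 : cj a (E (t⁻¹ * y * t)) = cj a u := by
        rw [← key, ← hy]
        congr 1
        group
      have h3 := congrArg (cj fun i => (a i)⁻¹) h2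
      rwa [cj_inv_cj, cj_inv_cj] at h3
    rw [if_neg hu, if_neg h1]

theorem int_torus (hE : IsMatGroup E) (hρ : IsMod m ρ) {g t : H} {a : Fin (n + 1) → Rˣ}
    (ht : E t = diagonal fun i => (a i : R)) (hk : Measurable (kk E vol κ (t * g))) :
    ∫ u, ‖kk E vol κ (t * g) u‖ ∂(uMeas m (n + 1)) = modU ρ a * ∫ u, ‖kk E vol κ g u‖ ∂(uMeas m (n + 1)) := by
  have h1 := map_cj hρ a
  have h2 : ∫ u, ‖kk E vol κ (t * g) u‖ ∂((uMeas m (n + 1)).map (cj a)) = ∫ u, ‖kk E vol κ g u‖ ∂(uMeas m (n + 1)) := by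
    rw [integral_map (continuous_cj a).measurable.aemeasurable hk.norm.aestronglyMeasurable]
    simp_rw [kk_torus hE ht]
  rw [h1, integral_smul_measure, ENNReal.toReal_ofReal (modU_nonneg hρ _), smul_eq_mul] at h2
  rw [← h2, ← mul_assoc, ← modU_mul]
  have h3 : modU ρ (a * fun i => (a i)⁻¹) = 1 := by
    unfold modU
    refine Finset.prod_eq_one fun i _ => Finset.prod_eq_one fun j _ => ?_
    split_ifs
    · simp
    · rfl
  rw [h3, one_mul]

theorem two' {J : Type*} [Fintype J] [DecidableEq J] (hP : IsPair O D)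
    (hχ : Continuous χ) (hμ : ∀ i < n, IsDual O χ (μ i)) (hE : IsMatGroup E) (hρ : IsMod m ρ)
    {Γ : Subgroup H} {N : R → ℝ} {Q : ℝ} (hL : IsLevel E O Γ N Q)
    {F : Set H} {f : J → H → ℂ} {ϑ : Γ →* Circle} (hϑ : IsNeb E Γ ϑ)
    (hf : IsForms vol Γ F ϑ f) (hκ : IsK κ) {C : Set H} (h0 : ∀ x ∉ C, κ x = 0) {Λ : J → ℂ}
    (hΛ : ∀ j x, ∫ y, f j (x * y) * κ y ∂vol = Λ j * f j x) {g t : H}
    {a : Fin (n + 1) → Rˣ} (ht : E t = diagonal fun i => (a i : R)) (hS : IsSmallSet E N Q C (t * g)) :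
    ∑ j, ‖Λ j‖ ^ 2 * ‖R8.Wh E m D χ μ (f j) (t * g)‖ ^ 2 ≤ modU ρ a * bd E m D vol κ g := by
  refine (one m hP hχ hμ hE hL hϑ hf hκ h0 hΛ hS).trans ?_
  have hkK : IsK (kk E vol κ (t * g)) := isK_kk hE hκ
  unfold bd
  rw [mul_left_comm, ← int_torus m hE hρ ht hkK.meas]
  refine mul_le_mul_of_nonneg_left ?_ (pow_nonneg measureReal_nonneg _)
  refine (Complex.re_le_norm _).trans ((norm_integral_le_integral_norm _).trans (le_of_eq ?_))
  refine integral_congr_ae (Filter.Eventually.of_forall fun u => ?_)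
  dsimp only
  rw [norm_conj_mul _ _ (norm_psi _ _ _)]

theorem density_all {ι J : Type*} [Fintype J] [DecidableEq J] {P : ι → Place R} {M : ι → ℕ} (hP : IsPair O D)
    (hχ : Continuous χ) (hμ : ∀ i < n, IsDual O χ (μ i)) (hE : IsMatGroup E) (hρ : IsMod m ρ)
    {Γ : Subgroup H} {N : R → ℝ} {Q : ℝ} (hL : IsLevel E O Γ N Q)
    {F : Set H} {f : J → H → ℂ} {ϑ : Γ →* Circle} (hϑ : IsNeb E Γ ϑ)
    (hf : IsForms vol Γ F ϑ f) (hκ : IsK κ) {C : Set H} (h0 : ∀ x ∉ C, κ x = 0) {Λ : J → ℂ}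
    (hΛ : ∀ j x, ∫ y, f j (x * y) * κ y ∂vol = Λ j * f j x) {α : ι → J → Fin (n + 1) → ℂ}
    (S : Finset ι) (hpl : ∀ p ∈ S, IsPlace E ρ χ μ (P p)) (hH : ∀ p ∈ S, ∀ j, IsHecke E (P p) (α p j) (f j))
    (hfix : ∀ p ∈ S, ∀ p' ∈ S, p ≠ p' → ∀ x ∈ (P p').o, ((P p).ϖ : R) * x = x)
    {g : H} (hg : ∀ p ∈ S, IsAway E (P p) g) (hR : IsRange E N Q C g P S M) :
    ∑ j, ‖Λ j‖ ^ 2 * (∏ p ∈ S, (∏ i, max 1 ‖α p j i‖) ^ (2 * M p)) * ‖R8.Wh E m D χ μ (f j) g‖ ^ 2 ≤
      ((2 * (n + 1)).choose (n + 1) : ℝ) ^ S.card * bd E m D vol κ g := by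
  refine multi m hP hχ hμ hE hρ hf.2.1 (fun j o x ho => ?_) (fun j => by positivity) S hpl hH hfix g _ hg
    (fun l hl => ?_)
  · have ho' : o ∈ Γ := hL.uni o ho
    have h1 := hf.2.2.1 j ⟨o, ho'⟩ x
    have h2 : ϑ ⟨o, ho'⟩ = 1 := by
      apply hϑ
      · intro i
        exact ho.1.1 _ _ (Fin.castSucc_lt_last i)
      · exact ho.1.2 _
    rw [h2, Circle.coe_one, one_mul] at h1
    exact h1
  · exact two' m hP hχ hμ hE hρ hL hϑ hf hκ h0 hΛ (torS_val hpl l) (small_of_range hpl hR hl)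

end Pool.Agent.H496.R10
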